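import Pool.Agent.U598.PS.Inx
import Pool.Agent.N162.GP.Final2

/-!
Cycles with null trace and few points on the images of a variety whose generic points impose
independent conditions on the canonical forms; smooth complete intersections.
-/

set_option autoImplicit false
set_option linter.unusedSectionVars false

open FF Pool.Agent.W603.LV Pool.Agent.Y184.NT Pool.Agent.N162.BC IntermediateField MvPolynomial
open Pool.Agent.W602.GT
open Pool.Agent.N162.GP

namespace Pool.Agent.U598.PS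

/-- cycles with null trace and few points on an image of `V` are zero -/
theorem null_zero {n m N B : ℕ} {K : Type} [Field K] [Algebra ℂ K] {x : Fin N → K}
    {ω₀ : (Fin n → Derivation ℂ K K) → K}
    (hgen : IntermediateField.adjoin ℂ (Set.range x) = ⊤) (hK : Algebra.trdeg ℂ K = n)
    (hpl₀ : IsPluri 1 ω₀) (hne₀ : ∃ D, ω₀ D ≠ 0)
    (hreg₀ : ∀ f : Fin m → Fin N, GlobalForm n (fun D => (∏ k, x (f k)) * ω₀ D))
    {Ω : Type} [Field Ω] [Algebra ℂ Ω] [IsAlgClosed Ω]
    (hINX : ∀ (S : Finset (K →ₐ[ℂ] Ω)) (lam : (K →ₐ[ℂ] Ω) → Ω), S.Nonempty →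
      (∀ σ ∈ S, lam σ ≠ 0) → S.card < B →
      ¬ ∀ f : Fin m → Fin N, ∑ σ ∈ S, lam σ * ∏ k, σ (x (f k)) = 0)
    (hTRF : StTRF) (hTRS : StTRS) (hNTW : StNTW) {L : Type} [Field L] [Algebra ℂ L]
    [Algebra.EssFiniteType ℂ L] [Algebra L K] [IsScalarTower ℂ L K] [FiniteDimensional L K]
    {t : ℕ} (hΩ : Algebra.trdeg ℂ Ω = t)
    {f : (L →ₐ[ℂ] Ω) →₀ ℤ} (hf : NullTrace n f)
    (hcard : f.support.card * Module.finrank L K < B) : f = 0 := by
  classical
  haveI := ess_of_gen hgen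
  have hcL : CharZero L := charZero_of_injective_algebraMap (algebraMap ℂ L).injective
  have hcΩ : CharZero Ω := charZero_of_injective_algebraMap (algebraMap ℂ Ω).injective
  have hLn : Algebra.trdeg ℂ L = n := by rw [← hK, trdeg_alg ℂ L K]
  obtain ⟨u, ω, hu, hu', hpl, hne, hreg⟩ := hTRF n L K K hK ω₀ hpl₀ hne₀
  obtain ⟨κ, hκ, hrel⟩ := hNTW n t L Ω hLn hΩ ω hpl hne f hf
  choose S κ' hS hSc hκ' hsum using fun σ : L →ₐ[ℂ] Ω => hTRS L K K Ω u hu hu' σ
  have hres : ∀ σ, ∀ ρ ∈ S σ, ρ.comp (IsScalarTower.toAlgHom ℂ L K) = σ := by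
    intro σ ρ hρ
    obtain ⟨-, σ', h1, h2⟩ := hκ' σ ρ hρ
    ext a
    change ρ (algebraMap L K a) = σ a
    rw [← h1, ← h2]
    rfl
  by_contra h0
  obtain ⟨lam, hlam⟩ : ∃ lam : (K →ₐ[ℂ] Ω) → Ω, ∀ ρ, lam ρ =
      (f (ρ.comp (IsScalarTower.toAlgHom ℂ L K)) : Ω) *
        κ (ρ.comp (IsScalarTower.toAlgHom ℂ L K)) *
        κ' (ρ.comp (IsScalarTower.toAlgHom ℂ L K)) ρ := ⟨_, fun _ => rfl⟩
  have hlam' : ∀ σ, ∀ ρ ∈ S σ, lam ρ = (f σ : Ω) * κ σ * κ' σ ρ := by
    intro σ ρ hρ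
    rw [hlam, hres σ ρ hρ]
  obtain ⟨σ₀, hσ₀⟩ := Finsupp.support_nonempty_iff.2 h0
  refine hINX (f.support.biUnion S) lam
    ⟨(hS σ₀).choose, Finset.mem_biUnion.2 ⟨σ₀, hσ₀, (hS σ₀).choose_spec⟩⟩ (fun ρ hρ => ?_)
    (lt_of_le_of_lt Finset.card_biUnion_le (lt_of_le_of_lt (Finset.sum_le_card_nsmul _ _
      (Module.finrank L K) fun σ _ => hSc σ) hcard)) fun g => ?_
  · obtain ⟨σ, hσ, hρ'⟩ := Finset.mem_biUnion.1 hρ
    rw [hlam' σ ρ hρ']
    exact mul_ne_zero (mul_ne_zero (Int.cast_ne_zero.2 (Finsupp.mem_support_iff.1 hσ)) (hκ σ hσ))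
      (hκ' σ ρ hρ').1
  · rw [Finset.sum_biUnion]
    · have h1 := hrel _ (hreg _ (hreg₀ g))
      rw [← h1]
      refine Finset.sum_congr rfl fun σ _ => ?_
      rw [hsum, Finset.mul_sum]
      refine Finset.sum_congr rfl fun ρ hρ => ?_
      rw [hlam' σ ρ hρ, map_prod]
      ring
    · intro σ _ τ _ hστ
      change Disjoint (S σ) (S τ)
      rw [Finset.disjoint_left]
      intro ρ hρ hρ'
      exact hστ ((hres σ ρ hρ).symm.trans (hres τ ρ hρ'))

/-- a smooth complete intersection is the only component -/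
theorem comp_of_smoothCI {M c : ℕ} {K : Type} [Field K] [Algebra ℂ K]
    {F : Fin c → MvPolynomial (Fin (M + 2)) ℂ} {d : Fin c → ℕ} {x : Fin (M + 2) → K}
    (h : SmoothCI F d x) : RingHom.ker (aeval x : MvPolynomial (Fin (M + 2)) ℂ →ₐ[ℂ] K) ∈
      (Ideal.span (insert (X 0 - 1) (Set.range F))).minimalPrimes := by
  classical
  obtain ⟨I, hI⟩ : ∃ I, I = Ideal.span (insert (X 0 - 1) (Set.range F)) := ⟨_, rfl⟩
  have hprime : (RingHom.ker (aeval x : MvPolynomial (Fin (M + 2)) ℂ →ₐ[ℂ] K)).IsPrime :=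
    RingHom.ker_isPrime _
  have hle : Ideal.span (Set.range F) ≤ I := by
    rw [hI]
    exact Ideal.span_mono (Set.subset_insert _ _)
  have hX : (X 0 - 1 : MvPolynomial (Fin (M + 2)) ℂ) ∈ I := by
    rw [hI]
    exact Ideal.subset_span (Set.mem_insert _ _)
  have h1 : I ≤ RingHom.ker (aeval x : MvPolynomial (Fin (M + 2)) ℂ →ₐ[ℂ] K) := by
    rw [hI, Ideal.span_le]
    rintro _ (rfl | ⟨i, rfl⟩)
    · change aeval x (X 0 - 1 : MvPolynomial (Fin (M + 2)) ℂ) = 0
      rw [map_sub, aeval_X, map_one, h.one, sub_self]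
    · exact (h.generic (d i) (F i) (h.hom i)).2 (Ideal.le_radical (Ideal.subset_span ⟨i, rfl⟩))
  have h2 : RingHom.ker (aeval x : MvPolynomial (Fin (M + 2)) ℂ →ₐ[ℂ] K) ≤ I.radical := by
    intro P hP
    have hP0 : aeval x P = 0 := hP
    obtain ⟨Ph, hPh⟩ : ∃ Ph : MvPolynomial (Fin (M + 2)) ℂ, Ph =
      ∑ i ∈ Finset.range (P.totalDegree + 1), X 0 ^ (P.totalDegree - i) *
        homogeneousComponent i P := ⟨_, rfl⟩
    have h3 : Ph.IsHomogeneous P.totalDegree := by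
      rw [hPh]
      refine IsHomogeneous.sum _ _ _ fun i hi => ?_
      have h4 := ((isHomogeneous_X_pow (R := ℂ) (0 : Fin (M + 2)) (P.totalDegree - i))).mul
        (homogeneousComponent_isHomogeneous i P)
      rw [Finset.mem_range] at hi
      rwa [Nat.sub_add_cancel (by omega)] at h4
    have h4 : aeval x Ph = 0 := by
      rw [hPh, map_sum]
      have h5 : ∑ i ∈ Finset.range (P.totalDegree + 1), aeval x (X 0 ^ (P.totalDegree - i) *
          homogeneousComponent i P) = aeval x (∑ i ∈ Finset.range (P.totalDegree + 1),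
            homogeneousComponent i P) := by
        rw [map_sum]
        refine Finset.sum_congr rfl fun i _ => ?_
        rw [map_mul, map_pow, aeval_X, h.one, one_pow, one_mul]
      rw [h5, sum_homogeneousComponent, hP0]
    have h5 : Ph ∈ I.radical := Ideal.radical_mono hle ((h.generic _ Ph h3).1 h4)
    have h6 : P - Ph ∈ I := by
      have h7 : P - Ph = ∑ i ∈ Finset.range (P.totalDegree + 1),
          (1 - X 0 ^ (P.totalDegree - i)) * homogeneousComponent i P := by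
        conv_lhs => rw [← sum_homogeneousComponent P]
        rw [hPh]
        simp only [sub_mul, one_mul, Finset.sum_sub_distrib]
      rw [h7]
      refine I.sum_mem fun i _ => I.mul_mem_right _ ?_
      have h8 : (X 0 - 1 : MvPolynomial (Fin (M + 2)) ℂ) ∣ 1 - X 0 ^ (P.totalDegree - i) := by
        have h9 := sub_dvd_pow_sub_pow (X 0 : MvPolynomial (Fin (M + 2)) ℂ) 1 (P.totalDegree - i)
        rw [one_pow] at h9
        rw [← neg_sub (X 0 ^ (P.totalDegree - i)) 1, dvd_neg]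
        exact h9
      exact I.mem_of_dvd h8 hX
    have h7 := I.radical.add_mem (Ideal.le_radical h6) h5
    rwa [sub_add_cancel] at h7
  rw [← hI]
  refine ⟨⟨hprime, h1⟩, fun 𝔮 hq _ => ?_⟩
  exact h2.trans (hq.1.radical_le_iff.2 hq.2)

end Pool.Agent.U598.PS
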