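import Pool.Agent.U598.PS.Main

/-!
Sets of points of zero-dimensional complete intersections which fail to impose independent
conditions on the polynomials of degree `m`.
-/

set_option autoImplicit false
set_option linter.unusedSectionVars false

open MvPolynomial Pool.Agent.U598.MD
open Pool.Agent.U598.IK (Ind ind_zero)

namespace Pool.Agent.U598.PS

/-- the combinatorics of the dimensions at one point -/
theorem comb_egh {s κ e : ℕ} (D ea : ℕ → ℕ) (hanti : ∀ i j, i ≤ j → j < s → ea j ≤ ea i)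
    (hle : ∀ j < s, ea j ≤ D j - 1) (he1 : ∀ j < s, 1 ≤ ea j)
    (hsum : ∑ j ∈ Finset.range κ, (D j - 1) + e ≤ ∑ j ∈ Finset.range s, ea j)
    (hD : ∀ j < κ, 1 ≤ D j) :
    (∀ j < κ, D j ≤ if j < s then 2 * s * ea j else 1) ∧
      e + 1 ≤ if κ < s then 2 * s * ea κ else 1 := by
  have key : ∀ j < s, ∀ w, (∑ i ∈ Finset.range j, (D i - 1) + w ≤ ∑ i ∈ Finset.range s, ea i) →
      w ≤ s * ea j := by
    intro j hj w hw
    have h1 := Finset.sum_range_add_sum_Ico ea hj.le
    have h2 : ∑ i ∈ Finset.range j, ea i ≤ ∑ i ∈ Finset.range j, (D i - 1) :=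
      Finset.sum_le_sum fun i hi => hle i (by rw [Finset.mem_range] at hi; omega)
    have h3 : ∑ i ∈ Finset.Ico j s, ea i ≤ (s - j) * ea j := by
      have h4 := Finset.sum_le_card_nsmul (Finset.Ico j s) ea (ea j) fun i hi => by
        rw [Finset.mem_Ico] at hi
        exact hanti j i hi.1 hi.2
      rwa [Nat.card_Ico, smul_eq_mul] at h4
    have h5 : (s - j) * ea j ≤ s * ea j := Nat.mul_le_mul_right _ (by omega)
    omega
  have hup : ∑ i ∈ Finset.range s, ea i ≤ ∑ i ∈ Finset.range s, (D i - 1) :=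
    Finset.sum_le_sum fun i hi => hle i (Finset.mem_range.1 hi)
  have two : ∀ j < s, ∀ w, w ≤ s * ea j → w + 1 ≤ 2 * s * ea j := by
    intro j hj w hw
    have h1 := he1 j hj
    have h2 : 1 ≤ s * ea j := Nat.mul_pos (by omega) h1
    have h3 : 2 * s * ea j = s * ea j + s * ea j := by ring
    omega
  refine ⟨fun j hj => ?_, ?_⟩
  · split_ifs with h
    · have h1 : ∑ i ∈ Finset.range (j + 1), (D i - 1) ≤ ∑ i ∈ Finset.range κ, (D i - 1) :=
        Finset.sum_le_sum_of_subset (Finset.range_subset_range.2 (by omega))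
      rw [Finset.sum_range_succ] at h1
      have h2 := two j h _ (key j h (D j - 1) (by omega))
      have h3 := hD j hj
      omega
    · have h1 : ∑ i ∈ Finset.range κ, (D i - 1) ≤ ∑ i ∈ Finset.range s, (D i - 1) := by omega
      have h2 := Finset.sum_range_add_sum_Ico (fun i => D i - 1) (show s ≤ κ by omega)
      have h3 : D j - 1 ≤ ∑ i ∈ Finset.Ico s κ, (D i - 1) :=
        Finset.single_le_sum (f := fun i => D i - 1) (fun _ _ => Nat.zero_le _)
          (Finset.mem_Ico.2 ⟨by omega, hj⟩)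
      omega
  · split_ifs with h
    · exact two κ h _ (key κ h e hsum)
    · have h1 : ∑ i ∈ Finset.range s, (D i - 1) ≤ ∑ i ∈ Finset.range κ, (D i - 1) :=
        Finset.sum_le_sum_of_subset (Finset.range_subset_range.2 (by omega))
      omega

/-- the product -/
theorem prod_egh {s κ e : ℕ} (D e0 : ℕ → ℕ) (he1 : ∀ j < s, 1 ≤ e0 j) (hs : 1 ≤ s)
    (h1 : ∀ j < κ, D j ≤ if j < s then 2 * s * e0 j else 1)
    (h2 : e + 1 ≤ if κ < s then 2 * s * e0 κ else 1) :
    (e + 1) * ∏ j ∈ Finset.range κ, D j ≤ (2 * s) ^ s * ∏ j ∈ Finset.range s, e0 j := by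
  calc (e + 1) * ∏ j ∈ Finset.range κ, D j
      ≤ (if κ < s then 2 * s * e0 κ else 1) *
          ∏ j ∈ Finset.range κ, (if j < s then 2 * s * e0 j else 1) :=
        Nat.mul_le_mul h2 (Finset.prod_le_prod' fun j hj => h1 j (Finset.mem_range.1 hj))
    _ = ∏ j ∈ Finset.range (κ + 1), (if j < s then 2 * s * e0 j else 1) := by
        rw [Finset.prod_range_succ, mul_comm]
    _ ≤ ∏ j ∈ Finset.range s, (2 * s * e0 j) := by
        rw [← Finset.prod_filter]
        refine Finset.prod_le_prod_of_subset_of_one_le' ?_ ?_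
        · intro j hj
          rw [Finset.mem_filter] at hj
          exact Finset.mem_range.2 hj.2
        · intro j hj _
          exact Nat.mul_pos (by omega) (he1 j (Finset.mem_range.1 hj))
    _ = _ := by
        rw [Finset.prod_mul_distrib, Finset.prod_const, Finset.card_range]

/-- **Sets of points which fail to impose independent conditions.** The points are given in affine
coordinates of their linear span; `F` are equations for which the points are isolated. -/
theorem egh_core {E : Type} [Field E] [Infinite E] {s c m κ e : ℕ} (hs : s ≤ c) (hc : 1 ≤ c)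
    {ι : Type} [Fintype ι] [Nonempty ι] (P : ι → Fin s → E) (hinj : Function.Injective P)
    (hy : ∀ G : MvPolynomial (Fin s) E, G.totalDegree ≤ 1 → G ∈ vi P → G = 0)
    (F : ℕ → MvPolynomial (Fin s) E) (d : ℕ → ℕ) (hd : ∀ i j, i ≤ j → j < c → d i ≤ d j)
    (hd1 : ∀ i < c, 1 ≤ d i)
    (hFd : ∀ i < c, (F i).totalDegree ≤ d i) (hF : ∀ i < c, F i ∈ vi P)
    (hiso : ∀ (a : ι) (𝔮 : Ideal (MvPolynomial (Fin s) E)), 𝔮.IsPrime → (∀ i < c, F i ∈ 𝔮) →
      𝔮 ≤ pm (P a) → ¬ Ind 𝔮 1)
    (lam : ι → E) (hlam : ∀ a, lam a ≠ 0)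
    (hrel : ∀ α : Fin s →₀ ℕ, α.degree ≤ m → ∑ a, lam a * ∏ j, P a j ^ α j = 0)
    (hκ : κ ≤ c) (hm : ∑ j ∈ Finset.range κ, (d (c - 1 - j) - 1) + e ≤ m + 1) :
    (e + 1) * ∏ j ∈ Finset.range κ, d (c - 1 - j) ≤
      (2 * c) ^ c * ((4 * c) ^ (c * (c + 1) / 2) * Fintype.card ι) := by
  classical
  choose ea he he1 using fun a => exists_eI (P := P) hy a
  have hanti : ∀ a k, 1 ≤ k → k + 1 ≤ s → ea a (k + 1) ≤ ea a k := by
    intro a k h1 h2
    exact (he a k h1 (by omega) _).1 (((he a (k + 1) (by omega) h2 _).2 le_rfl).of_le (by omega))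
  have hanti' : ∀ a i j, i ≤ j → j < s → ea a (j + 1) ≤ ea a (i + 1) := by
    intro a i j hij
    induction j, hij using Nat.le_induction with
    | base => intro _; exact le_rfl
    | succ j _ ih => intro hj; exact (hanti a (j + 1) (by omega) (by omega)).trans (ih (by omega))
  -- the sum of the degrees
  have hsum : ∀ a, m + 1 ≤ ∑ j ∈ Finset.range s, ea a (j + 1) := by
    intro a
    obtain ⟨W, hW⟩ : ∃ W : ℕ → Submodule E (MvPolynomial (Fin s) E),
      W = fun l => restrictTotalDegree (Fin s) E (ea a (s - l) + 1) ⊓ (vi P).restrictScalars E :=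
      ⟨_, rfl⟩
    have hmemW : ∀ l G, G ∈ W l ↔ G.totalDegree ≤ ea a (s - l) + 1 ∧ G ∈ vi P := by
      intro l G
      rw [hW]
      change G ∈ restrictTotalDegree (Fin s) E (ea a (s - l) + 1) ⊓ (vi P).restrictScalars E ↔ _
      rw [Submodule.mem_inf, mem_restrictTotalDegree, Submodule.restrictScalars_mem]
    obtain ⟨G, hG, hG2⟩ := sys1 W (𝔪 := pm (P a)) (k := 0) (fun l hl 𝔯 h1 h2 h3 hI => by
        have h4 := (he a (s - l) (by omega) (by omega) (ea a (s - l) + 1)).1
          ⟨𝔯, h1, fun G hG hJ => h2 G ((hmemW l G).2 ⟨hG, hJ⟩), h3, hI⟩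
        omega) (Nat.zero_le s)
    have hGW : ∀ l : Fin (s - 0), (G l).totalDegree ≤ ea a (s - l) + 1 ∧ G l ∈ vi P := fun l =>
      (hmemW l _).1 (hG l)
    have hmin : pm (P a) ∈ (Ideal.span (Set.range G)).minimalPrimes := by
      refine ⟨⟨pm_prime _, ?_⟩, ?_⟩
      · rw [Ideal.span_le]
        rintro _ ⟨l, rfl⟩
        exact vi_le a (hGW l).2
      · rintro 𝔱 ⟨ht, ht2⟩ ht3
        by_contra hne
        have hlt : 𝔱 < pm (P a) := lt_of_le_of_ne ht3 fun h' => hne (by rw [h'])
        exact hG2 𝔱 ht ht2 ht3 ((ind_zero (pm_prime (P a)).ne_top).lt ht hlt)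
    have h1 := isoP' (m := m) (by rw [Fintype.card_fin, Nat.sub_zero])
      (fun l : Fin (s - 0) => ea a (s - l)) P hinj G
      (fun l => (hGW l).1) (fun b l => mem_vi.1 (hGW l).2 b) a hmin lam (hlam a) hrel
    have h2 : ∑ l : Fin (s - 0), ea a (s - l) = ∑ j ∈ Finset.range s, ea a (j + 1) := by
      rw [Fin.sum_univ_eq_sum_range (fun l => ea a (s - l)) (s - 0), Nat.sub_zero,
        ← Finset.sum_range_reflect]
      refine Finset.sum_congr rfl fun j hj => ?_
      rw [Finset.mem_range] at hj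
      congr 1
      omega
    omega
  -- the upper bounds
  have hup : ∀ a, ∀ j < s, ea a (j + 1) ≤ d (c - 1 - j) - 1 := by
    intro a j hj
    by_contra hcon
    push Not at hcon
    have h1 := hd1 (c - 1 - j) (by omega)
    obtain ⟨𝔭, hp1, hp2, hp3, hp4⟩ := ((he a (j + 1) (by omega) (by omega) _).2
      (show d (c - 1 - j) ≤ ea a (j + 1) by omega))
    obtain ⟨g, hg⟩ : ∃ g : Fin j → MvPolynomial (Fin s) E,
      g = fun l : Fin j => F (c - j + l) := ⟨_, rfl⟩
    have hle : 𝔭 ⊔ Ideal.span (Set.range g) ≤ pm (P a) := by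
      refine sup_le hp3 ?_
      rw [Ideal.span_le, hg]
      rintro _ ⟨l, rfl⟩
      exact vi_le a (hF _ (by have := l.2; omega))
    have hpp := pm_prime (P a)
    obtain ⟨𝔮, hq, hqm⟩ := Ideal.exists_minimalPrimes_le hle
    refine hiso a 𝔮 hq.isPrime (fun i hi => ?_) hqm (krull j hp1 (D := 1) (by rwa [add_comm]) g hq)
    by_cases h : i < c - j
    · exact hq.1.2 (le_sup_left (a := 𝔭) (hp2 _ ((hFd i hi).trans
        (hd i (c - 1 - j) (by omega) (by omega))) (hF i hi)))
    · refine hq.1.2 ((le_sup_right : _ ≤ 𝔭 ⊔ _) (Ideal.subset_span ⟨⟨i - (c - j), by omega⟩, ?_⟩))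
      rw [hg]
      dsimp only
      congr 1
      omega
  -- the smallest degrees
  obtain ⟨a0⟩ : Nonempty ι := inferInstance
  have hs1 : 1 ≤ s := by
    by_contra h
    have h1 := hsum a0
    rw [show s = 0 by omega, Finset.range_zero, Finset.sum_empty] at h1
    omega
  have hne : (Finset.univ : Finset ι).Nonempty := ⟨a0, Finset.mem_univ _⟩
  obtain ⟨e0, he0⟩ : ∃ e0 : ℕ → ℕ, e0 = fun k => Finset.univ.inf' hne fun a => ea a k := ⟨_, rfl⟩
  have hle : ∀ a k, e0 k ≤ ea a k := fun a k => by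
    rw [he0]
    exact Finset.inf'_le _ (Finset.mem_univ a)
  have hex : ∀ k, ∃ a, e0 k = ea a k := fun k => by
    obtain ⟨a, -, ha⟩ := Finset.exists_mem_eq_inf' hne fun a => ea a k
    exact ⟨a, by rw [he0]; exact ha⟩
  have hanti0 : ∀ k, 1 ≤ k → k + 1 ≤ s → e0 (k + 1) ≤ e0 k := by
    intro k h1 h2
    obtain ⟨a, ha⟩ := hex k
    rw [ha]
    exact (hle a (k + 1)).trans (hanti a k h1 h2)
  have he10 : ∀ k, 1 ≤ k → k ≤ s → 1 ≤ e0 k := by
    intro k h1 h2
    obtain ⟨a, ha⟩ := hex k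
    rw [ha]
    exact he1 a k h1 h2
  have hcomb := fun a => comb_egh (s := s) (κ := κ) (e := e) (fun j => d (c - 1 - j))
    (fun j => ea a (j + 1)) (hanti' a) (hup a) (fun j hj => he1 a (j + 1) (by omega) (by omega))
    (hm.trans (hsum a)) (fun j hj => hd1 _ (by omega))
  have h1 := prod_egh (s := s) (κ := κ) (e := e) (fun j => d (c - 1 - j)) (fun j => e0 (j + 1))
    (fun j hj => he10 (j + 1) (by omega) (by omega)) hs1 (fun j hj => by
      obtain ⟨a, ha⟩ := hex (j + 1)
      have h2 := (hcomb a).1 j hj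
      rw [ha]
      exact h2) (by
      obtain ⟨a, ha⟩ := hex (κ + 1)
      have h2 := (hcomb a).2
      rw [ha]
      exact h2)
  have h2 := prod_le_card hc hs P e0
    (fun k h1 h2 a => ((he a k h1 h2 _).2 le_rfl).anti (hle a k)) hanti0 he10
  have h3 : ∏ j ∈ Finset.range s, e0 (j + 1) = ∏ k ∈ Finset.Icc 1 s, e0 k := by
    rw [Finset.range_eq_Ico, Finset.prod_Ico_add' e0 0 s 1, zero_add]
    rfl
  have h4 : (2 * s) ^ s ≤ (2 * c) ^ c :=
    (Nat.pow_le_pow_left (by omega) s).trans (Nat.pow_le_pow_right (by omega) hs)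
  rw [h3] at h1
  exact h1.trans (Nat.mul_le_mul h4 h2)

end Pool.Agent.U598.PS
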