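import Pool.Agent.U598.PS.Egh

/-!
Sets of points of zero-dimensional complete intersections in projective space which fail to impose
independent conditions on the forms of degree `m`.
-/

set_option autoImplicit false
set_option linter.unusedSectionVars false

open MvPolynomial Pool.Agent.U598.MD
open Pool.Agent.U598.IK (Ind ind_zero)

namespace Pool.Agent.U598.PS

theorem eval_smul_hom {K : Type*} [Field K] {σ : Type*} [Fintype σ] {F : MvPolynomial σ K} {n : ℕ}
    (h : F.IsHomogeneous n) (t : K) (v : σ → K) :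
    eval (fun i => t * v i) F = t ^ n * eval v F := by
  classical
  rw [eval_eq', eval_eq', Finset.mul_sum]
  refine Finset.sum_congr rfl fun e he => ?_
  have h1 := h (mem_support_iff.1 he)
  have h2 : ∑ i, e i = n := by
    rw [← h1, ← Finsupp.degree_eq_sum, Finsupp.degree_eq_weight_one]
    rfl
  simp only [mul_pow]
  rw [Finset.prod_mul_distrib, Finset.prod_pow_eq_pow_sum, h2]
  ring

/-- a linear form which does not vanish at finitely many points -/
theorem exists_lin {K : Type*} [Field K] [Infinite K] {N : ℕ} {ι : Type*} [Fintype ι]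
    (P : ι → Fin N → K) (hP : ∀ a, P a ≠ 0) : ∃ ℓ : Fin N → K, ∀ a, ∑ j, ℓ j * P a j ≠ 0 := by
  classical
  obtain ⟨Q, hQ⟩ : ∃ Q : MvPolynomial (Fin N) K, Q = ∏ a, ∑ j, C (P a j) * X j := ⟨_, rfl⟩
  have hQ0 : Q ≠ 0 := by
    rw [hQ, Finset.prod_ne_zero_iff]
    intro a _ h0
    apply hP a
    funext j
    have h1 := congrArg (eval (Pi.single j (1 : K))) h0
    simp only [map_sum, map_mul, eval_C, eval_X, map_zero] at h1
    rw [Finset.sum_eq_single j] at h1
    · rwa [Pi.single_eq_same, mul_one] at h1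
    · intro i _ hi
      rw [Pi.single_eq_of_ne hi, mul_zero]
    · intro h
      exact absurd (Finset.mem_univ _) h
  obtain ⟨ℓ, hℓ⟩ : ∃ ℓ : Fin N → K, eval ℓ Q ≠ 0 := by
    by_contra hcon
    push Not at hcon
    exact hQ0 (funext fun ℓ => by rw [hcon, map_zero])
  refine ⟨ℓ, fun a h0 => hℓ ?_⟩
  rw [hQ, map_prod]
  refine Finset.prod_eq_zero (Finset.mem_univ a) ?_
  rw [map_sum, ← h0]
  refine Finset.sum_congr rfl fun j _ => ?_
  rw [map_mul, eval_C, eval_X, mul_comm]

/-- **Sets of points in projective space**, with weights which are not zero. -/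
theorem egh_wt {K : Type} [Field K] [IsAlgClosed K] {c m κ e : ℕ} (hc : 1 ≤ c)
    {ι : Type} [Fintype ι] [Nonempty ι] (P : ι → Fin (c + 1) → K) (hP : ∀ a, P a ≠ 0)
    (hPne : ∀ a b, a ≠ b → ∀ t : K, P a ≠ fun j => t * P b j)
    (F : ℕ → MvPolynomial (Fin (c + 1)) K) (d : ℕ → ℕ) (hd : ∀ i j, i ≤ j → j < c → d i ≤ d j)
    (hd1 : ∀ i < c, 1 ≤ d i) (hFd : ∀ i < c, (F i).IsHomogeneous (d i))
    (hfin : ∀ j : Fin (c + 1), Set.Finite {x : Fin (c + 1) → K | x j = 1 ∧
      ∀ i < c, eval x (F i) = 0})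
    (hF : ∀ i < c, ∀ a, eval (P a) (F i) = 0)
    (lam : ι → K) (hlam : ∀ a, lam a ≠ 0)
    (hrel : ∀ G : MvPolynomial (Fin (c + 1)) K, G.IsHomogeneous m →
      ∑ a, lam a * eval (P a) G = 0)
    (hκ : κ ≤ c) (hm : ∑ j ∈ Finset.range κ, (d (c - 1 - j) - 1) + e ≤ m + 1) :
    (e + 1) * ∏ j ∈ Finset.range κ, d (c - 1 - j) ≤
      (2 * c) ^ c * ((4 * c) ^ (c * (c + 1) / 2) * Fintype.card ι) := by
  classical
  have hinf : Infinite K := IsAlgClosed.instInfinite
  obtain ⟨ℓ, hℓ⟩ := exists_lin P hP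
  obtain ⟨q, hq⟩ : ∃ q : ι → K, ∀ a, q a = ∑ j, ℓ j * P a j := ⟨_, fun _ => rfl⟩
  have hq0 : ∀ a, q a ≠ 0 := fun a => by
    rw [hq]
    exact hℓ a
  obtain ⟨u, hu⟩ : ∃ u : Fin (c + 1) → ι → K, ∀ j a, u j a = (q a)⁻¹ * P a j := ⟨_, fun _ _ => rfl⟩
  have hPu : ∀ j a, P a j = q a * u j a := fun j a => by
    rw [hu, ← mul_assoc, mul_inv_cancel₀ (hq0 a), one_mul]
  have hℓu : ∑ j, ℓ j • u j = (1 : ι → K) := by
    funext a
    rw [Finset.sum_apply, Pi.one_apply]
    have h1 : ∀ j, (ℓ j • u j) a = (q a)⁻¹ * (ℓ j * P a j) := fun j => by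
      rw [Pi.smul_apply, smul_eq_mul, hu]
      ring
    rw [Finset.sum_congr rfl fun j _ => h1 j, ← Finset.mul_sum, ← hq, inv_mul_cancel₀ (hq0 a)]
  obtain ⟨x, hx⟩ : ∃ x : Fin (c + 2) → ι → K, x = Fin.cons 1 u := ⟨_, rfl⟩
  have hx0 : x 0 = 1 := by rw [hx, Fin.cons_zero]
  have hxs : ∀ j : Fin (c + 1), x j.succ = u j := fun j => by rw [hx, Fin.cons_succ]
  obtain ⟨s, y, l, hs, hl1, hl2, hl3, hy⟩ := exists_frame1 (E := K) x hx0
  have hsc : s ≤ c := by
    have h1 : Module.finrank K (Submodule.span K (Set.range x)) ≤ c + 1 := by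
      have h2 : Submodule.span K (Set.range x) ≤ Submodule.span K (Set.range u) := by
        rw [Submodule.span_le]
        rintro _ ⟨j, rfl⟩
        refine Fin.cases ?_ (fun j => ?_) j
        · rw [hx0, ← hℓu]
          exact Submodule.sum_mem _ fun j _ => Submodule.smul_mem _ _
            (Submodule.subset_span ⟨j, rfl⟩)
        · rw [hxs]
          exact Submodule.subset_span ⟨j, rfl⟩
      refine (Submodule.finrank_mono h2).trans ?_
      have h3 := finrank_range_le_card (R := K) u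
      rwa [Fintype.card_fin] at h3
    omega
  obtain ⟨P', hP'⟩ : ∃ P' : ι → Fin s → K, P' = fun i k => y k i := ⟨_, rfl⟩
  have hev : ∀ (i : ι) (G : MvPolynomial (Fin s) K), aeval (P' i) G = (aeval y G) i := by
    intro i G
    have h1 := comp_aeval_apply (φ := Pi.evalAlgHom K (fun _ : ι => K) i) y G
    rw [hP']
    exact h1.symm
  have hvi : ∀ G : MvPolynomial (Fin s) K, G ∈ vi P' ↔ aeval y G = 0 := by
    intro G
    rw [mem_vi]
    constructor
    · intro h
      funext i
      rw [← hev, h]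
      rfl
    · intro h i
      rw [hev, h]
      rfl
  have hPl : ∀ i (j : Fin (c + 1)), aeval (P' i) (l j.succ) = u j i := fun i j => by
    rw [hev, hl2, hxs]
  -- the coordinates
  have hl3' : ∀ i : Fin s, ∃ j : Fin (c + 1), u j = y i ∧ l j.succ = X i := by
    intro i
    obtain ⟨j, hj1, hj2⟩ := hl3 i
    revert hj1 hj2
    refine Fin.cases ?_ (fun j => ?_) j
    · intro hj1 hj2
      exfalso
      have h1 := hy (X i - 1) ((totalDegree_sub _ _).trans (max_le (by rw [totalDegree_X])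
        (by rw [totalDegree_one]; omega))) (by rw [map_sub, aeval_X, map_one, ← hj1, hx0, sub_self])
      have h2 := congrArg totalDegree (sub_eq_zero.1 h1)
      rw [totalDegree_X, totalDegree_one] at h2
      omega
    · intro hj1 hj2
      exact ⟨j, by rw [← hj1, hxs], hj2⟩
  choose jj hjj1 hjj2 using hl3'
  have hℓl : ∑ j : Fin (c + 1), C (ℓ j) * l j.succ = 1 := by
    rw [← sub_eq_zero]
    refine hy _ ((totalDegree_sub _ _).trans (max_le ?_ ?_)) ?_
    · refine totalDegree_finsetSum_le fun j _ => ?_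
      refine (totalDegree_mul _ _).trans ?_
      rw [totalDegree_C, zero_add]
      exact hl1 _
    · rw [totalDegree_one]
      omega
    · rw [map_sub, map_one, map_sum, ← hℓu, sub_eq_zero]
      refine Finset.sum_congr rfl fun j _ => ?_
      rw [map_mul, aeval_C, hl2, hxs, ← Algebra.smul_def]
  have hinj : Function.Injective P' := by
    intro a b h
    by_contra hne
    refine hPne a b hne (q a * (q b)⁻¹) (_root_.funext fun j => ?_)
    have h1 : u j a = u j b := by rw [← hPl, ← hPl, h]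
    rw [hPu, h1, hu, mul_assoc]
  obtain ⟨F', hF'⟩ : ∃ F' : ℕ → MvPolynomial (Fin s) K,
    ∀ i, F' i = aeval (fun j : Fin (c + 1) => l j.succ) (F i) := ⟨_, fun _ => rfl⟩
  have hF'ev : ∀ i (z : Fin s → K), aeval z (F' i) =
      eval (fun j : Fin (c + 1) => aeval z (l j.succ)) (F i) := by
    intro i z
    rw [hF', comp_aeval_apply, aev]
  have hF'vi : ∀ i < c, F' i ∈ vi P' := by
    intro i hi
    rw [mem_vi]
    intro a
    rw [hF'ev]
    have h1 : (fun j : Fin (c + 1) => aeval (P' a) (l j.succ)) = fun j => (q a)⁻¹ * P a j := by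
      funext j
      rw [hPl, hu]
    rw [h1, eval_smul_hom (hFd i hi), hF i hi, mul_zero]
  -- the common zeros
  have hZ : {z : Fin s → K | ∀ i < c, aeval z (F' i) = 0}.Finite := by
    obtain ⟨w, hw⟩ : ∃ w : (Fin s → K) → Fin (c + 1) → K, ∀ z j, w z j = aeval z (l j.succ) :=
      ⟨_, fun _ _ => rfl⟩
    have hw1 : ∀ z, ∑ j, ℓ j * w z j = 1 := by
      intro z
      have h1 := congrArg (aeval z : MvPolynomial (Fin s) K →ₐ[K] K) hℓl
      rw [map_one, map_sum] at h1
      rw [← h1]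
      refine Finset.sum_congr rfl fun j _ => ?_
      rw [map_mul, aeval_C, hw]
      rfl
    have hwinj : Function.Injective w := by
      intro z z' h
      funext i
      have h1 := congrFun h (jj i)
      rw [hw, hw, hjj2, aeval_X, aeval_X] at h1
      exact h1
    have hw0 : ∀ z, ∃ j, w z j ≠ 0 := by
      intro z
      by_contra hcon
      push Not at hcon
      have h1 := hw1 z
      rw [Finset.sum_eq_zero fun j _ => by rw [hcon, mul_zero]] at h1
      exact zero_ne_one h1
    choose jz hjz using hw0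
    have h1 : (⋃ j, {x : Fin (c + 1) → K | x j = 1 ∧ ∀ i < c, eval x (F i) = 0}).Finite :=
      Set.finite_iUnion hfin
    refine Set.Finite.of_injOn (f := fun z j => (w z (jz z))⁻¹ * w z j)
      (t := ⋃ j, {x : Fin (c + 1) → K | x j = 1 ∧ ∀ i < c, eval x (F i) = 0}) ?_ ?_ h1
    · intro z hz
      refine Set.mem_iUnion.2 ⟨jz z, inv_mul_cancel₀ (hjz z), fun i hi => ?_⟩
      rw [eval_smul_hom (hFd i hi)]
      have h2 := hz i hi
      rw [hF'ev] at h2
      have h3 : w z = fun j : Fin (c + 1) => aeval z (l j.succ) := _root_.funext fun j => hw z j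
      rw [h3, h2, mul_zero]
    · intro z hz z' hz' h
      apply hwinj
      have h2 : ∀ j, (w z (jz z))⁻¹ * w z j = (w z' (jz z'))⁻¹ * w z' j := fun j => congrFun h j
      have h3 : (w z (jz z))⁻¹ = (w z' (jz z'))⁻¹ := by
        have h4 : ∀ (t : K) (z : Fin s → K), ∑ j, ℓ j * (t * w z j) = t := by
          intro t z
          have h5 : ∀ j, ℓ j * (t * w z j) = t * (ℓ j * w z j) := fun j => by ring
          rw [Finset.sum_congr rfl fun j _ => h5 j, ← Finset.mul_sum, hw1, mul_one]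
        rw [← h4 (w z (jz z))⁻¹ z, ← h4 (w z' (jz z'))⁻¹ z']
        exact Finset.sum_congr rfl fun j _ => by rw [h2]
      funext j
      have h4 := h2 j
      rw [h3] at h4
      exact mul_left_cancel₀ (inv_ne_zero (hjz z')) h4
  have hiso : ∀ (a : ι) (𝔮 : Ideal (MvPolynomial (Fin s) K)), 𝔮.IsPrime →
      (∀ i < c, F' i ∈ 𝔮) → 𝔮 ≤ pm (P' a) → ¬ Ind 𝔮 1 := by
    intro a 𝔮 hqp hq1 hq2 hI
    obtain ⟨T, -, hT⟩ := hI.coords hqp
    obtain ⟨Q, hQ⟩ : ∃ Q : MvPolynomial (Fin 1) K, Q = ∏ z ∈ hZ.toFinset, (X 0 - C (z (T 0))) :=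
      ⟨_, rfl⟩
    refine hT Q ?_ ?_
    · rw [hQ, Finset.prod_ne_zero_iff]
      intro i _ h0
      have h5 := congrArg totalDegree (sub_eq_zero.1 h0)
      rw [totalDegree_X, totalDegree_C] at h5
      omega
    · rw [← hqp.radical, ← vanishingIdeal_zeroLocus_eq_radical (K := K)]
      intro z hz
      have h1 : z ∈ hZ.toFinset := by
        rw [Set.Finite.mem_toFinset]
        intro i hi
        exact hz _ (hq1 i hi)
      rw [hQ, map_prod, map_prod]
      refine Finset.prod_eq_zero h1 ?_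
      rw [map_sub, aeval_X, aeval_C, map_sub, aeval_X, MvPolynomial.algebraMap_eq, aeval_C]
      exact sub_self _
  refine egh_core hsc hc P' hinj (fun G hG hG2 => hy G hG ((hvi G).1 hG2)) F' d hd hd1
    (fun i hi => ?_) hF'vi hiso (fun a => lam a * q a ^ m)
    (fun a => mul_ne_zero (hlam a) (pow_ne_zero _ (hq0 a))) (fun α hα => ?_) hκ hm
  · rw [hF']
    exact (Pool.Agent.U598.IK.totalDegree_aeval_le _ (fun j => hl1 _) (F i)).trans
      (hFd i hi).totalDegree_le
  · obtain ⟨G, hG⟩ : ∃ G : MvPolynomial (Fin (c + 1)) K,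
      G = (∏ i, X (jj i) ^ α i) * (∑ j, C (ℓ j) * X j) ^ (m - α.degree) := ⟨_, rfl⟩
    have hGh : G.IsHomogeneous m := by
      have h1 : (∏ i, X (jj i) ^ α i : MvPolynomial (Fin (c + 1)) K).IsHomogeneous
          (∑ i, α i) := IsHomogeneous.prod _ _ _ fun i _ => isHomogeneous_X_pow _ _
      have h2 : (∑ j, C (ℓ j) * X j : MvPolynomial (Fin (c + 1)) K).IsHomogeneous 1 :=
        IsHomogeneous.sum _ _ _ fun j _ => by
          have h3 := (isHomogeneous_C (Fin (c + 1)) (ℓ j)).mul (isHomogeneous_X K j)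
          rwa [zero_add] at h3
      have h3 := h1.mul (h2.pow (m - α.degree))
      rw [← hG, one_mul, ← Finsupp.degree_eq_sum] at h3
      rwa [Nat.add_sub_cancel' hα] at h3
    rw [← hrel G hGh]
    refine Finset.sum_congr rfl fun a _ => ?_
    have h1 : eval (P a) (∑ j, C (ℓ j) * X j) = q a := by
      rw [map_sum, hq]
      refine Finset.sum_congr rfl fun j _ => ?_
      rw [map_mul, eval_C, eval_X]
    have h2 : eval (P a) (∏ i, X (jj i) ^ α i) = q a ^ α.degree * ∏ i, P' a i ^ α i := by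
      rw [map_prod, Finsupp.degree_eq_sum, ← Finset.prod_pow_eq_pow_sum,
        ← Finset.prod_mul_distrib]
      refine Finset.prod_congr rfl fun i _ => ?_
      have h4 : u (jj i) a = P' a i := by rw [hjj1, hP']
      rw [map_pow, eval_X, hPu, mul_pow, h4]
    rw [hG, map_mul, map_pow, h1, h2]
    have h3 : q a ^ m = q a ^ α.degree * q a ^ (m - α.degree) := by
      rw [← pow_add, Nat.add_sub_cancel' hα]
    rw [h3]
    ring

end Pool.Agent.U598.PS
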