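import Pool.Agent.U598.PS.Egh2
import Pool.Agent.N162.GP.Facts

/-!
Sets of points on finite sets which are cut out by forms of degree at most `D` and fail to impose
independent conditions on the forms of degree a little larger than `D`.
-/

set_option autoImplicit false
set_option linter.unusedSectionVars false

open FF MvPolynomial Pool.Agent.W603.LV
open Pool.Agent.N162.HN (Crv Good At mu pr act act_act)
open Pool.Agent.N162.GP
open Pool.Agent.N340.GP (ge_aeval ge_pole ge_aeval_sub)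

namespace Pool.Agent.U598.PS

/-- finite sets in projective space -/
theorem finite_proj {K : Type} [Field K] {N : ℕ} {κ : Type} (F : κ → MvPolynomial (Fin N) K)
    (d : κ → ℕ) (hF : ∀ i, (F i).IsHomogeneous (d i))
    (hfin : ∀ j, {x : Fin N → K | x j = 1 ∧ ∀ i, eval x (F i) = 0}.Finite) {V : Type} (Z : Set V)
    (w : V → Fin N → K) (hw0 : ∀ z ∈ Z, w z ≠ 0) (hwZ : ∀ z ∈ Z, ∀ i, eval (w z) (F i) = 0)
    (hinj : ∀ z ∈ Z, ∀ z' ∈ Z, ∀ t : K, (w z = fun j => t * w z' j) → z = z') : Z.Finite := by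
  classical
  obtain ⟨f, hf⟩ : ∃ f : V → Fin N → K, ∀ z ∈ Z, ∃ j, w z j ≠ 0 ∧ f z = fun i => (w z j)⁻¹ * w z i := by
    refine ⟨fun z => if h : ∃ j, w z j ≠ 0 then fun i => (w z h.choose)⁻¹ * w z i else 0,
      fun z hz => ?_⟩
    have h : ∃ j, w z j ≠ 0 := by
      by_contra hcon
      push Not at hcon
      exact hw0 z hz (_root_.funext hcon)
    refine ⟨h.choose, h.choose_spec, ?_⟩
    beta_reduce
    rw [dif_pos h]
  have h1 : (⋃ j, {x : Fin N → K | x j = 1 ∧ ∀ i, eval x (F i) = 0}).Finite :=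
    Set.finite_iUnion hfin
  refine Set.Finite.of_injOn (f := f)
    (t := ⋃ j, {x : Fin N → K | x j = 1 ∧ ∀ i, eval x (F i) = 0}) ?_ ?_ h1
  · intro z hz
    obtain ⟨j, hj, hfz⟩ := hf z hz
    refine Set.mem_iUnion.2 ⟨j, ?_, fun i => ?_⟩
    · rw [hfz]
      exact inv_mul_cancel₀ hj
    · rw [hfz, eval_smul_hom (hF i), hwZ z hz, mul_zero]
  · intro z hz z' hz' h
    obtain ⟨j, hj, hfz⟩ := hf z hz
    obtain ⟨j', hj', hfz'⟩ := hf z' hz'
    refine hinj z hz z' hz' (w z j * (w z' j')⁻¹) ?_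
    funext i
    have h2 : (w z j)⁻¹ * w z i = (w z' j')⁻¹ * w z' i := by
      have h3 := congrFun (hfz.symm.trans (h.trans hfz')) i
      exact h3
    rw [mul_assoc, ← h2, ← mul_assoc, mul_inv_cancel₀ hj, one_mul]

/-- a curve in affine space is infinite -/
theorem curve_infinite {M : ℕ} {Ω : Type} [Field Ω] [IsAlgClosed Ω] (C : Crv M Ω) {κ : Type}
    (F : κ → MvPolynomial (Fin (M + 2)) Ω) (hF : ∀ i, aeval C.X (F i) = 0) :
    ¬ {v : Fin (M + 2) → Ω | v 0 = 1 ∧ ∀ i, eval v (F i) = 0}.Finite := by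
  classical
  intro hfin
  obtain ⟨𝔭, h𝔭⟩ : ∃ 𝔭, 𝔭 = RingHom.ker (aeval C.X : MvPolynomial (Fin (M + 2)) Ω →ₐ[Ω] C.E) :=
    ⟨_, rfl⟩
  have hp : 𝔭.IsPrime := by
    rw [h𝔭]
    exact RingHom.ker_isPrime _
  obtain ⟨Q, hQ⟩ : ∃ Q : MvPolynomial (Fin (M + 2)) Ω,
      Q = ∏ z ∈ hfin.toFinset, (X 1 - MvPolynomial.C (z 1)) := ⟨_, rfl⟩
  have hQp : Q ∈ 𝔭 := by
    rw [← hp.radical, ← vanishingIdeal_zeroLocus_eq_radical (K := Ω)]
    intro z hz
    have h1 : z ∈ hfin.toFinset := by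
      rw [Set.Finite.mem_toFinset]
      refine ⟨?_, fun i => ?_⟩
      · have h2 : (X 0 - 1 : MvPolynomial (Fin (M + 2)) Ω) ∈ 𝔭 := by
          rw [h𝔭, RingHom.mem_ker, map_sub, aeval_X, map_one, C.good.one, sub_self]
        have h3 := hz _ h2
        rw [map_sub, aeval_X, map_one, sub_eq_zero] at h3
        exact h3
      · have h2 : F i ∈ 𝔭 := by
          rw [h𝔭, RingHom.mem_ker]
          exact hF i
        exact hz _ h2
    rw [hQ, map_prod]
    refine Finset.prod_eq_zero h1 ?_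
    rw [map_sub, aeval_X, aeval_C]
    exact sub_self _
  rw [h𝔭, RingHom.mem_ker, hQ, map_prod, Finset.prod_eq_zero_iff] at hQp
  obtain ⟨z, -, hz⟩ := hQp
  rw [map_sub, aeval_X, aeval_C, sub_eq_zero] at hz
  exact C.good.tr (hz ▸ isAlgebraic_algebraMap _)

/-- polynomials of small degree with many zeros on a curve -/
theorem bezout {M D : ℕ} {Ω : Type} [Field Ω] [IsAlgClosed Ω] [CharZero Ω] (C : Crv M Ω)
    (T : Finset (Fin (M + 2) → Ω)) (hT : ∀ p ∈ T, C.On p) (hcard : C.deg * D < T.card)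
    (Q : MvPolynomial (Fin (M + 2)) Ω) (hQ : Q.totalDegree ≤ D) (hQT : ∀ p ∈ T, eval p Q = 0) :
    aeval C.X Q = 0 := by
  classical
  have hX := C.good
  by_contra hne
  obtain ⟨c1, c2, c3, c4⟩ := Pool.Agent.N162.HN.fC1 M Ω C.E C.X hX (aeval C.X Q) D hne
    (fun v hv => ge_aeval (hX.fin v hv) _) (fun v hv => ge_pole hX hQ v hv)
  have h2 : ∀ p ∈ T, 1 ≤ mu C.X (aeval C.X Q) p := by
    intro p hp
    obtain ⟨v, hv⟩ := hT p hp
    have h3 : Ge v 1 (aeval C.X Q) := by
      have h4 := ge_aeval_sub hv Q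
      rwa [hQT p hp, map_zero, sub_zero] at h4
    have h5 : 0 < v.ord (aeval C.X Q) := by
      rcases h3 with h3 | h3
      · exact absurd h3 hne
      · omega
    have h6 := (c2 p).2 ⟨v, hv, h5⟩
    have h7 := c1 p
    omega
  have h3 := Finset.sum_le_sum h2
  rw [Finset.sum_const, nsmul_eq_mul, mul_one] at h3
  have h4 := h3.trans (c4 T)
  have h5 : T.card ≤ Module.finrank (IntermediateField.adjoin Ω {C.X 1}) C.E * D := by
    exact_mod_cast h4
  exact absurd hcard (not_lt.2 h5)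

theorem eval_aeval {K : Type} [Field K] {σ τ : Type} (v : σ → K) (L : τ → MvPolynomial σ K)
    (G : MvPolynomial τ K) : eval v (aeval L G) = eval (fun j => eval v (L j)) G := by
  have h := comp_aeval_apply (φ := (aeval v : MvPolynomial σ K →ₐ[K] K)) L G
  simpa only [aeval_eq_eval] using h

theorem act_smul {M : ℕ} {R : Type} [Field R] (B : Matrix (Fin (M + 2)) (Fin (M + 2)) ℚ) (t : R)
    (v : Fin (M + 2) → R) : act B (fun j => t * v j) = fun j => t * act B v j := by
  funext i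
  unfold act
  rw [Finset.mul_sum]
  exact Finset.sum_congr rfl fun j _ => by ring

/-- **Few points on finite sets cut out in low degree.** -/
theorem exact1 {M m N D : ℕ} {Ω : Type} [Field Ω] [Algebra ℂ Ω] [IsAlgClosed Ω] (hM : 1 ≤ M)
    (hm : 7 * N + 4 ≤ m) (hN : (M + 1) * N < m + M + 2) (hD : D + N ≤ m + 2) {κ : Type}
    (F : κ → MvPolynomial (Fin (M + 2)) Ω) (d : κ → ℕ) (hF : ∀ i, (F i).IsHomogeneous (d i))
    (hd : ∀ i, d i ≤ D)
    (hfin : ∀ j, {x : Fin (M + 2) → Ω | x j = 1 ∧ ∀ i, eval x (F i) = 0}.Finite)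
    {ι : Type} [Fintype ι] [Nonempty ι] (P : ι → Fin (M + 2) → Ω) (hP : ∀ a, P a ≠ 0)
    (hPne : ∀ a b, a ≠ b → ∀ t : Ω, P a ≠ fun j => t * P b j)
    (hPF : ∀ i a, eval (P a) (F i) = 0) (lam : ι → Ω) (hlam : ∀ a, lam a ≠ 0)
    (hrel : ∀ G : MvPolynomial (Fin (M + 2)) Ω, G.IsHomogeneous m →
      ∑ a, lam a * eval (P a) G = 0) :
    (N + 1) * (m + 2 - N) ≤ Fintype.card ι := by
  classical
  by_contra hcard
  push Not at hcard
  have hcΩ : CharZero Ω := charZero_of_injective_algebraMap (algebraMap ℂ Ω).injective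
  have hinf : Infinite Ω := IsAlgClosed.instInfinite
  -- a linear form which does not vanish at the points
  obtain ⟨ℓ, hℓ⟩ := exists_lin (fun o : Option ι => o.elim (Pi.single 0 1) P) (by
    rintro (_ | a)
    · intro h
      have h1 := congrFun h 0
      simp at h1
    · exact hP a)
  have hℓ0 : ℓ 0 ≠ 0 := by
    have h1 := hℓ none
    simp only [Option.elim_none] at h1
    rw [Finset.sum_eq_single 0] at h1
    · rwa [Pi.single_eq_same, mul_one] at h1
    · intro j _ hj
      rw [Pi.single_eq_of_ne hj, mul_zero]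
    · intro h
      exact absurd (Finset.mem_univ _) h
  obtain ⟨s, hs⟩ : ∃ s : ι → Ω, ∀ a, s a = ∑ j, ℓ j * P a j := ⟨_, fun _ => rfl⟩
  have hs0 : ∀ a, s a ≠ 0 := fun a => by
    rw [hs]
    exact hℓ (some a)
  -- the new coordinates and the old ones
  obtain ⟨τ, hτ⟩ : ∃ τ : (Fin (M + 2) → Ω) → Fin (M + 2) → Ω, ∀ v, τ v =
      Function.update v 0 ((ℓ 0)⁻¹ * (v 0 - ∑ j : Fin (M + 1), ℓ j.succ * v j.succ)) :=
    ⟨_, fun _ => rfl⟩
  obtain ⟨q, hq⟩ : ∃ q : ι → Fin (M + 2) → Ω, ∀ a, q a = fun j => (s a)⁻¹ *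
      Function.update (P a) 0 (s a) j := ⟨_, fun _ => rfl⟩
  have hτ0 : ∀ v, τ v 0 = (ℓ 0)⁻¹ * (v 0 - ∑ j : Fin (M + 1), ℓ j.succ * v j.succ) := fun v => by
    rw [hτ, Function.update_self]
  have hτs : ∀ v (j : Fin (M + 1)), τ v j.succ = v j.succ := fun v j => by
    rw [hτ, Function.update_of_ne (Fin.succ_ne_zero j)]
  have hq0 : ∀ a, q a 0 = 1 := fun a => by
    rw [hq]
    beta_reduce
    rw [Function.update_self, inv_mul_cancel₀ (hs0 a)]
  have hqs : ∀ a (j : Fin (M + 1)), q a j.succ = (s a)⁻¹ * P a j.succ := fun a j => by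
    rw [hq]
    beta_reduce
    rw [Function.update_of_ne (Fin.succ_ne_zero j)]
  have hτq : ∀ a, P a = fun j => s a * τ (q a) j := by
    intro a
    funext j
    refine Fin.cases ?_ (fun j => ?_) j
    · rw [hτ0, hq0]
      have h1 : ∑ j : Fin (M + 1), ℓ j.succ * q a j.succ =
          (s a)⁻¹ * ∑ j : Fin (M + 1), ℓ j.succ * P a j.succ := by
        rw [Finset.mul_sum]
        refine Finset.sum_congr rfl fun j _ => ?_
        rw [hqs]
        ring
      have h2 : ∑ j : Fin (M + 1), ℓ j.succ * P a j.succ = s a - ℓ 0 * P a 0 := by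
        have h3 := Fin.sum_univ_succ (fun j : Fin (M + 2) => ℓ j * P a j)
        rw [hs, h3]
        ring
      rw [h1, h2]
      field_simp [hs0 a]
      ring
    · rw [hτs, hqs, ← mul_assoc, mul_inv_cancel₀ (hs0 a), one_mul]
  have hqinj : Function.Injective q := by
    intro a b hab
    by_contra hne
    refine hPne a b hne (s a * (s b)⁻¹) ?_
    rw [hτq a, hab]
    funext j
    have h1 := congrFun (hτq b) j
    rw [h1]
    field_simp [hs0 b]
  -- substitution
  obtain ⟨L, hL⟩ : ∃ L : Fin (M + 2) → MvPolynomial (Fin (M + 2)) Ω, L =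
      Function.update (fun j => X j) 0 (MvPolynomial.C (ℓ 0)⁻¹ *
        (X 0 - ∑ j : Fin (M + 1), MvPolynomial.C (ℓ j.succ) * X j.succ)) := ⟨_, rfl⟩
  have hLh : ∀ j, (L j).IsHomogeneous 1 := by
    intro j
    refine Fin.cases ?_ (fun j => ?_) j
    · rw [hL, Function.update_self]
      have h1 : (X 0 - ∑ j : Fin (M + 1), MvPolynomial.C (ℓ j.succ) * X j.succ :
          MvPolynomial (Fin (M + 2)) Ω).IsHomogeneous 1 :=
        (isHomogeneous_X Ω 0).sub (IsHomogeneous.sum _ _ _ fun j _ => isHomogeneous_C_mul_X _ _)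
      have h2 := (isHomogeneous_C (Fin (M + 2)) (ℓ 0)⁻¹).mul h1
      rwa [zero_add] at h2
    · rw [hL, Function.update_of_ne (Fin.succ_ne_zero j)]
      exact isHomogeneous_X Ω _
  have hLe : ∀ v j, eval v (L j) = τ v j := by
    intro v j
    refine Fin.cases ?_ (fun j => ?_) j
    · rw [hL, Function.update_self, hτ0, map_mul, eval_C, map_sub, eval_X, map_sum]
      simp only [map_mul, eval_C, eval_X]
    · rw [hL, Function.update_of_ne (Fin.succ_ne_zero j), hτs, eval_X]
  -- the inverse substitution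
  obtain ⟨L', hL'⟩ : ∃ L' : Fin (M + 2) → MvPolynomial (Fin (M + 2)) Ω, L' =
      Function.update (fun j => X j) 0 (∑ j, MvPolynomial.C (ℓ j) * X j) := ⟨_, rfl⟩
  have hL'h : ∀ j, (L' j).IsHomogeneous 1 := by
    intro j
    refine Fin.cases ?_ (fun j => ?_) j
    · rw [hL', Function.update_self]
      exact IsHomogeneous.sum _ _ _ fun j _ => isHomogeneous_C_mul_X _ _
    · rw [hL', Function.update_of_ne (Fin.succ_ne_zero j)]
      exact isHomogeneous_X Ω _
  have hL'e : ∀ a j, eval (P a) (L' j) = s a * q a j := by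
    intro a j
    refine Fin.cases ?_ (fun j => ?_) j
    · rw [hL', Function.update_self, hq0, map_sum, mul_one, hs]
      exact Finset.sum_congr rfl fun j _ => by rw [map_mul, eval_C, eval_X]
    · rw [hL', Function.update_of_ne (Fin.succ_ne_zero j), hqs, eval_X, ← mul_assoc,
        mul_inv_cancel₀ (hs0 a), one_mul]
  -- the relation in the new coordinates
  obtain ⟨lam', hlam'⟩ : ∃ lam' : ι → Ω, ∀ a, lam' a = lam a * s a ^ m := ⟨_, fun _ => rfl⟩
  have hrel' : ∀ G : MvPolynomial (Fin (M + 2)) Ω, G.IsHomogeneous m →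
      ∑ a, lam' a * eval (q a) G = 0 := by
    intro G hG
    have h1 : (aeval L' G).IsHomogeneous m := by
      have h2 := hG.aeval (n := 1) L' hL'h
      rwa [one_mul] at h2
    rw [← hrel _ h1]
    refine Finset.sum_congr rfl fun a _ => ?_
    have h2 : eval (P a) (aeval L' G) = s a ^ m * eval (q a) G := by
      rw [← eval_smul_hom hG, eval_aeval]
      congr 2
      funext j
      exact hL'e a j
    rw [h2, hlam']
    ring
  have hlam'0 : ∀ a, lam' a ≠ 0 := fun a => by
    rw [hlam']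
    exact mul_ne_zero (hlam a) (pow_ne_zero _ (hs0 a))
  -- general rational coordinates
  obtain ⟨B, B', A, hBB', hB'B, hB0, hA, -⟩ := Pool.Agent.N162.HN.fB1 M Ω ι Finset.univ q lam' m N
    (X 1) hM Finset.univ_nonempty (fun a _ => hq0 a) hqinj.injOn (fun a _ => hlam'0 a)
    (fun G hG => hrel' G hG) hm (by rw [Finset.card_univ]; exact hcard)
    ⟨Pi.single 1 1, by simp, by simp⟩
  obtain ⟨y, hy⟩ : ∃ y : ι → Fin (M + 2) → Ω, ∀ a, y a = act B (q a) := ⟨_, fun _ => rfl⟩
  have hy0 : ∀ a, y a 0 = 1 := by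
    intro a
    rw [hy]
    unfold act
    rw [Finset.sum_eq_single 0]
    · rw [hB0, if_pos rfl, hq0]
      simp
    · intro j _ hj
      rw [hB0, if_neg hj]
      simp
    · intro h
      exact absurd (Finset.mem_univ _) h
  have hyq : ∀ a, act B' (y a) = q a := fun a => by
    rw [hy]
    exact act_act hB'B _
  have hyinj : Function.Injective y := fun a b hab => hqinj (by rw [← hyq a, ← hyq b, hab])
  obtain ⟨LB, hLB⟩ : ∃ LB : Matrix (Fin (M + 2)) (Fin (M + 2)) ℚ → Fin (M + 2) →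
      MvPolynomial (Fin (M + 2)) Ω, ∀ B i, LB B i = ∑ j, MvPolynomial.C (B i j : Ω) * X j :=
    ⟨_, fun _ _ => rfl⟩
  have hLBh : ∀ B i, (LB B i).IsHomogeneous 1 := fun B i => by
    rw [hLB]
    exact IsHomogeneous.sum _ _ _ fun j _ => isHomogeneous_C_mul_X _ _
  have hLBe : ∀ B v, (fun i => eval v (LB B i)) = act B v := by
    intro B v
    funext i
    rw [hLB, map_sum]
    unfold act
    exact Finset.sum_congr rfl fun j _ => by rw [map_mul, eval_C, eval_X]
  have hrely : ∀ G : MvPolynomial (Fin (M + 2)) Ω, G.IsHomogeneous m →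
      ∑ a, lam' a * eval (y a) G = 0 := by
    intro G hG
    have h1 : (aeval (LB B) G).IsHomogeneous m := by
      have h2 := hG.aeval (n := 1) (LB B) (hLBh B)
      rwa [one_mul] at h2
    rw [← hrel' _ h1]
    refine Finset.sum_congr rfl fun a _ => ?_
    rw [eval_aeval, hLBe, hy]
  obtain ⟨S', hS'⟩ : ∃ S', S' = Finset.univ.image y := ⟨_, rfl⟩
  obtain ⟨μ, hμ⟩ : ∃ μ : (Fin (M + 2) → Ω) → Ω, ∀ a, μ (y a) = lam' a :=
    ⟨Function.extend y lam' 0, fun a => hyinj.extend_apply _ _ _⟩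
  have hmem : ∀ p ∈ S', ∃ a, y a = p := fun p hp => by
    rw [hS'] at hp
    obtain ⟨a, -, h⟩ := Finset.mem_image.1 hp
    exact ⟨a, h⟩
  have hS0 : ∀ p ∈ S', p 0 = 1 := by
    intro p hp
    obtain ⟨a, rfl⟩ := hmem p hp
    exact hy0 a
  obtain ⟨r, Cr, h1, h2, h3, h4⟩ := Pool.Agent.N162.HN.fCUR M Ω A hM
    (fun l => (hA l).1) (fun l => (hA l).2.1)
  obtain ⟨t₀, G, hG, hGi⟩ := fPRJ M r Ω A Cr hM (fun l => ⟨(hA l).1, (hA l).2.1⟩) ⟨h1, h2, h3, h4⟩ S'
    hS0
  obtain ⟨i, T, hTS, hTne, hTon, hgi, hTc⟩ := fGM M m N r Ω S' μ _ _ A t₀ G hM hm hN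
    (by rw [hS']; exact Finset.univ_nonempty.image _) (by
      rw [hS']
      exact lt_of_le_of_lt Finset.card_image_le (by rw [Finset.card_univ]; exact hcard))
    (fun p hp => ⟨hS0 p hp, by
        obtain ⟨a, rfl⟩ := hmem p hp
        rw [hμ]
        exact hlam'0 a⟩) (fun G hG => by
        rw [hS', Finset.sum_image fun a _ b _ hab => hyinj hab]
        simp only [hμ]
        exact hrely G hG) (fun l => ⟨(hA l).1, (hA l).2.1, (hA l).2.2.1, fun p hp => by
        obtain ⟨a, rfl⟩ := hmem p hp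
        rw [hy]
        exact (hA l).2.2.2 a (Finset.mem_univ _)⟩) hG hGi
  have hcard' : (Cr i).deg * D < T.card := by
    rcases Nat.eq_zero_or_pos (Cr i).deg with h0 | h0
    · rw [h0, zero_mul]
      exact hTne.card_pos
    · refine lt_of_lt_of_le (Nat.mul_lt_mul_of_pos_left ?_ h0) hTc
      omega
  -- the equations vanish on the curve
  obtain ⟨F', hF'⟩ : ∃ F' : κ → MvPolynomial (Fin (M + 2)) Ω, ∀ k, F' k =
      aeval (LB B') (aeval L (F k)) := ⟨_, fun _ => rfl⟩
  have hF'e : ∀ k v, eval v (F' k) = eval (τ (act B' v)) (F k) := by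
    intro k v
    rw [hF', eval_aeval, hLBe, eval_aeval]
    congr 2
    funext j
    exact hLe _ j
  have hF'd : ∀ k, (F' k).totalDegree ≤ D := by
    intro k
    have h5 : (aeval L (F k)).IsHomogeneous (d k) := by
      have h6 := (hF k).aeval (n := 1) L hLh
      rwa [one_mul] at h6
    have h6 : (aeval (LB B') (aeval L (F k))).IsHomogeneous (d k) := by
      have h7 := h5.aeval (n := 1) (LB B') (hLBh B')
      rwa [one_mul] at h7
    rw [hF']
    exact h6.totalDegree_le.trans (hd k)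
  have hvan : ∀ k, aeval (Cr i).X (F' k) = 0 := by
    intro k
    refine bezout (Cr i) T hTon hcard' (F' k) (hF'd k) fun p hp => ?_
    obtain ⟨a, rfl⟩ := hmem p (hTS hp)
    rw [hF'e, hyq]
    have h5 := hPF k a
    rw [hτq a, eval_smul_hom (hF k)] at h5
    exact (mul_eq_zero.1 h5).resolve_left (pow_ne_zero _ (hs0 a))
  -- but there are only finitely many zeros
  have hτi : ∀ v, v 0 = ∑ j, ℓ j * τ v j := by
    intro v
    rw [Fin.sum_univ_succ, hτ0, ← mul_assoc, mul_inv_cancel₀ hℓ0, one_mul]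
    simp only [hτs]
    ring
  have hτt : ∀ (t : Ω) (u u' : Fin (M + 2) → Ω), (τ u = fun j => t * τ u' j) →
      u = fun j => t * u' j := by
    intro t u u' h
    funext j
    refine Fin.cases ?_ (fun j => ?_) j
    · rw [hτi u, hτi u', Finset.mul_sum]
      refine Finset.sum_congr rfl fun j _ => ?_
      rw [h]
      ring
    · rw [← hτs u j, ← hτs u' j, h]
  refine curve_infinite (Cr i) F' hvan (finite_proj F d hF hfin _ (fun v => τ (act B' v))
    (fun v hv h0 => ?_) (fun v hv k => ?_) (fun v hv v' hv' t h => ?_))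
  · have h5 := hτt 0 (act B' v) 0 (by
      rw [h0]
      funext j
      rw [zero_mul]
      rfl)
    have h6 : v = 0 := by
      rw [← act_act hBB' v, h5]
      funext j
      rw [act_smul]
      simp
    have h7 := hv.1
    rw [h6] at h7
    exact zero_ne_one h7
  · rw [← hF'e]
    exact hv.2 k
  · have h5 := hτt t _ _ h
    have h6 : v = fun j => t * v' j := by
      have h7 := act_smul B t (act B' v')
      rw [act_act hBB'] at h7
      rw [← act_act hBB' v, h5, h7]
    have h7 : t = 1 := by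
      have h8 := congrFun h6 0
      rw [hv.1, hv'.1, mul_one] at h8
      exact h8.symm
    rw [h6, h7]
    funext j
    rw [one_mul]

end Pool.Agent.U598.PS
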