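import Pool.Agent.U598.PS.Inx
import Pool.Agent.N162.GP.Final3

/-!
Forms of lower degree on the varieties which are dominated by varieties over a variety whose generic
points impose independent conditions on the canonical forms.
-/

set_option autoImplicit false
set_option linter.unusedSectionVars false

open FF Pool.Agent.W603.LV Pool.Agent.Y184.NT Pool.Agent.N162.BC IntermediateField MvPolynomial
open Pool.Agent.W602.GT
open Pool.Agent.N162.GP

namespace Pool.Agent.U598.PS

/-- many forms -/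
theorem forms_k {n m N B : ℕ} {K : Type} [Field K] [Algebra ℂ K] {x : Fin N → K}
    {ω₀ : (Fin n → Derivation ℂ K K) → K}
    (hgen : IntermediateField.adjoin ℂ (Set.range x) = ⊤) (hK : Algebra.trdeg ℂ K = n)
    (hpl₀ : IsPluri 1 ω₀) (hne₀ : ∃ D, ω₀ D ≠ 0)
    (hreg₀ : ∀ f : Fin m → Fin N, GlobalForm n (fun D => (∏ k, x (f k)) * ω₀ D))
    (hINX : ∀ (Ω : Type) [Field Ω] [Algebra ℂ Ω] (S : Finset (K →ₐ[ℂ] Ω))
      (lam : (K →ₐ[ℂ] Ω) → Ω), S.Nonempty →
      (∀ σ ∈ S, lam σ ≠ 0) → S.card < B →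
      ¬ ∀ f : Fin m → Fin N, ∑ σ ∈ S, lam σ * ∏ k, σ (x (f k)) = 0)
    (hTNF : StTNF) (hTRS : StTRS) (hKGP : StKGP) (hn : 1 ≤ n) {w k : ℕ} {L R : Type}
    [Field L] [Algebra ℂ L] [Algebra.EssFiniteType ℂ L] [Field R] [Algebra ℂ R] [Algebra K R]
    [IsScalarTower ℂ K R] [Algebra L R] [IsScalarTower ℂ L R] [FiniteDimensional L R]
    (hL : Algebra.trdeg ℂ L = w) (hr : k * Module.finrank L R < B) :
    ∃ η : Fin k → AlternatingMap L (Derivation ℂ L L) L (Fin n), LinearIndependent ℂ η ∧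
      ∀ j, ∀ P : Place ℂ L, Divisorial w P → ∀ D : Fin n → Derivation ℂ L L,
        (∀ i, DerReg P (D i)) → P.Reg (η j D) := by
  classical
  haveI := ess_of_gen hgen
  have hcL : CharZero L := charZero_of_injective_algebraMap (algebraMap ℂ L).injective
  obtain ⟨u, D₀, hu, hu', hη⟩ := hTNF n w L K R hK hL ω₀ hpl₀ hne₀
  choose η h1 h2 using fun f : Fin m → Fin N => hη (∏ k, x (f k)) (hreg₀ f)
  obtain ⟨Ω, _, _, _, σ, hσ⟩ := hKGP w k L hL
  choose S κ hS hSc hκ hsum using fun i => hTRS L K R Ω u hu hu' (σ i)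
  -- the fibres are disjoint
  have hdisj : ∀ i j, i ≠ j → Disjoint (S i) (S j) := by
    intro i j hij
    rw [Finset.disjoint_left]
    intro ρ hρ hρ'
    obtain ⟨-, θ, h3, h4⟩ := hκ i ρ hρ
    obtain ⟨-, θ', h5, h6⟩ := hκ j ρ hρ'
    have h7 : ∀ b : K, ∃ z : ℂ, b = algebraMap ℂ K z := by
      intro b
      obtain ⟨z, hz⟩ := hσ i j hij (ρ b) (by rw [← h4]; exact alg_range _ _ h3 _)
        (by rw [← h6]; exact alg_range _ _ h5 _)
      refine ⟨z, ρ.toRingHom.injective ?_⟩
      change ρ b = ρ (algebraMap ℂ K z)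
      rw [hz, AlgHom.commutes]
    have h8 : Algebra.IsAlgebraic ℂ K := ⟨fun b => by
      obtain ⟨z, rfl⟩ := h7 b
      exact isAlgebraic_algebraMap z⟩
    have h9 : Algebra.trdeg ℂ K = 0 := trdeg_eq_zero_iff.2 h8
    rw [hK] at h9
    have : n = 0 := by exact_mod_cast h9
    omega
  obtain ⟨v, hv⟩ : ∃ v : (Fin m → Fin N) → Fin k → Ω,
    ∀ P i, v P i = σ i (Algebra.trace L R (algebraMap K R (∏ k, x (P k)) * u)) :=
    ⟨_, fun _ _ => rfl⟩
  have hspan : Submodule.span Ω (Set.range v) = ⊤ := by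
    by_contra hne
    obtain ⟨f, hf0, hf⟩ := Submodule.exists_le_ker_of_lt_top _ (lt_top_iff_ne_top.2 hne)
    obtain ⟨a, ha⟩ : ∃ a : Fin k → Ω, ∀ i, a i = f (Pi.single i 1) := ⟨_, fun _ => rfl⟩
    have hfa : ∀ y : Fin k → Ω, f y = ∑ i, a i * y i := by
      intro y
      conv_lhs => rw [LinearMap.pi_apply_eq_sum_univ f y]
      refine Finset.sum_congr rfl fun i _ => ?_
      rw [smul_eq_mul, mul_comm, ha]
      congr 2
      funext j
      rw [Pi.single_apply]
      simp only [eq_comm]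
    obtain ⟨i₀, hi₀⟩ : ∃ i, a i ≠ 0 := by
      by_contra hcon
      push Not at hcon
      apply hf0
      ext y
      · simp [hfa, hcon]
    obtain ⟨lam, hlam⟩ : ∃ lam : (K →ₐ[ℂ] Ω) → Ω, ∀ ρ, lam ρ =
      ∑ i, if ρ ∈ S i then a i * κ i ρ else 0 := ⟨_, fun _ => rfl⟩
    have hlam' : ∀ i, ∀ ρ ∈ S i, lam ρ = a i * κ i ρ := by
      intro i ρ hρ
      rw [hlam, Finset.sum_eq_single i]
      · rw [if_pos hρ]
      · intro j _ hj
        rw [if_neg (Finset.disjoint_left.1 (hdisj i j (Ne.symm hj)) hρ)]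
      · intro h
        exact absurd (Finset.mem_univ _) h
    refine hINX Ω ((Finset.univ.filter fun i => a i ≠ 0).biUnion S) lam
      ⟨(hS i₀).choose, Finset.mem_biUnion.2 ⟨i₀, Finset.mem_filter.2 ⟨Finset.mem_univ _, hi₀⟩,
        (hS i₀).choose_spec⟩⟩ (fun ρ hρ => ?_)
      (lt_of_le_of_lt Finset.card_biUnion_le (lt_of_le_of_lt (Finset.sum_le_card_nsmul _ _
        (Module.finrank L R) fun i _ => hSc i) (lt_of_le_of_lt ?_ hr))) fun P => ?_
    · obtain ⟨i, hi, hρ'⟩ := Finset.mem_biUnion.1 hρ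
      rw [hlam' i ρ hρ']
      exact mul_ne_zero (Finset.mem_filter.1 hi).2 (hκ i ρ hρ').1
    · rw [smul_eq_mul]
      refine Nat.mul_le_mul_right _ ((Finset.card_filter_le _ _).trans ?_)
      simp
    · rw [Finset.sum_biUnion fun i _ j _ hij => hdisj i j hij]
      have h3 : f (v P) = 0 := hf (Submodule.subset_span ⟨_, rfl⟩)
      rw [hfa] at h3
      rw [Finset.sum_filter]
      refine Eq.trans (Finset.sum_congr rfl fun i _ => ?_) h3
      split_ifs with h4
      · rw [hv, hsum, Finset.mul_sum]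
        refine Finset.sum_congr rfl fun ρ hρ => ?_
        rw [hlam' i ρ hρ, map_prod]
        ring
      · push Not at h4
        rw [h4, zero_mul]
  obtain ⟨b, hb, hbs, hbl⟩ := exists_linearIndependent Ω (Set.range v)
  rw [hspan] at hbs
  have hB := Module.Basis.mk hbl (by rw [Subtype.range_coe, hbs])
  have e : Fin k ≃ b := (hB.indexEquiv (Pi.basisFun Ω (Fin k))).symm
  choose P hP using fun j : Fin k => hb (e j).2
  have hli : LinearIndependent Ω fun j => v (P j) := by
    have h3 := hbl.comp e e.injective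
    have h4 : (fun j => v (P j)) = Subtype.val ∘ e := funext hP
    rw [h4]
    exact h3
  refine ⟨fun j => η (P j), ?_, fun j => h1 (P j)⟩
  rw [Fintype.linearIndependent_iff] at hli ⊢
  intro c hc j
  have h3 := hli (fun j => algebraMap ℂ Ω (c j)) (by
    funext i
    rw [Finset.sum_apply, Pi.zero_apply]
    have h4 := congrArg (evA D₀) hc
    rw [map_sum, map_zero] at h4
    have h5 := congrArg (σ i) h4
    rw [map_sum, map_zero] at h5
    refine Eq.trans (Finset.sum_congr rfl fun j _ => ?_) h5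
    change algebraMap ℂ Ω (c j) * v (P j) i = σ i (c j • η (P j) D₀)
    rw [hv, h2, map_smul, Algebra.smul_def]) j
  exact (map_eq_zero (algebraMap ℂ Ω)).1 h3

end Pool.Agent.U598.PS
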