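import Pool.Agent.U598.MD.Frame

/-!
Affine coordinates of the linear span of a point with values in an algebra.
-/

set_option autoImplicit false

open MvPolynomial Pool.Agent.U598.MD

namespace Pool.Agent.U598.PS

/-- the affine linear forms which express the elements of the span -/
theorem exists_frame0 {E K : Type*} [Field E] [CommRing K] [Nontrivial K] [Algebra E K] {N : ℕ} (x : Fin N → K)
    {j0 : Fin N} (hj0 : x j0 = 1) :
    ∃ (s : ℕ) (y : Fin s → K) (l : Fin N → MvPolynomial (Fin s) E),
      Module.finrank E (Submodule.span E (Set.range x)) = s + 1 ∧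
      (∀ j, (l j).totalDegree ≤ 1) ∧ (∀ j, aeval y (l j) = x j) ∧
      ∀ i, ∃ j, x j = y i ∧ l j = X i := by
  classical
  have hli : LinearIndepOn E id ({1} : Set K) := LinearIndepOn.singleton one_ne_zero
  obtain ⟨b, hbX, hb1, hspan, hb⟩ := exists_linearIndepOn_id_extension (s := ({1} : Set K))
    (t := Set.range x) hli (by
      rw [Set.singleton_subset_iff]
      exact ⟨j0, hj0⟩)
  have hbfin : b.Finite := (Set.finite_range x).subset hbX
  have : Fintype b := hbfin.fintype
  have h1b : (1 : K) ∈ b := hb1 rfl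
  have hspan' : Submodule.span E b = Submodule.span E (Set.range x) :=
    le_antisymm (Submodule.span_mono hbX) (Submodule.span_le.2 hspan)
  have hcard : Module.finrank E (Submodule.span E (Set.range x)) = Fintype.card b := by
    rw [← hspan']
    have h1 := finrank_span_set_eq_card (R := E) (s := b) hb
    rw [h1, Set.toFinset_card]
  obtain ⟨s, hs⟩ : ∃ s, Fintype.card b = s + 1 :=
    ⟨Fintype.card b - 1, by
      have : 0 < Fintype.card b := Fintype.card_pos_iff.2 ⟨⟨1, h1b⟩⟩
      omega⟩
  have hcard' : Fintype.card {k : b // k ≠ ⟨1, h1b⟩} = s := by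
    rw [Fintype.card_subtype_compl, hs]
    simp
  let e : Fin s ≃ {k : b // k ≠ ⟨1, h1b⟩} := (Fintype.equivFinOfCardEq hcard').symm
  obtain ⟨y, hy⟩ : ∃ y : Fin s → K, y = fun i => (((e i : {k : b // k ≠ ⟨1, h1b⟩}) : b) : K) :=
    ⟨_, rfl⟩
  have hyinj : Function.Injective y := by
    intro i i' h
    rw [hy] at h
    exact e.injective (Subtype.ext (Subtype.ext h))
  have hex : ∀ v ∈ Submodule.span E b, ∃ l : MvPolynomial (Fin s) E,
      l.totalDegree ≤ 1 ∧ aeval y l = v := by
    intro v hv
    induction hv using Submodule.span_induction with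
    | mem v hv =>
      by_cases h : v = 1
      · exact ⟨1, by simp, by rw [h, map_one]⟩
      · refine ⟨X (e.symm ⟨⟨v, hv⟩, fun h' => h (congrArg Subtype.val h')⟩), ?_, ?_⟩
        · rw [totalDegree_X]
        · rw [aeval_X, hy]
          simp
    | zero => exact ⟨0, by simp, map_zero _⟩
    | add v v' _ _ ih ih' =>
      obtain ⟨l, h1, h2⟩ := ih
      obtain ⟨l', h1', h2'⟩ := ih'
      exact ⟨l + l', (totalDegree_add _ _).trans (max_le h1 h1'), by rw [map_add, h2, h2']⟩
    | smul c v _ ih =>
      obtain ⟨l, h1, h2⟩ := ih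
      exact ⟨c • l, (totalDegree_smul_le _ _).trans h1, by rw [map_smul, h2]⟩
  choose l0 hl1 hl2 using fun j => hex (x j) (by
    rw [hspan']
    exact Submodule.subset_span ⟨j, rfl⟩)
  refine ⟨s, y, fun j => if h : ∃ i, y i = x j then X h.choose else l0 j, ?_, fun j => ?_,
    fun j => ?_, fun i => ?_⟩
  · rw [hcard, hs]
  · dsimp only
    split_ifs
    · rw [totalDegree_X]
    · exact hl1 j
  · dsimp only
    split_ifs with h
    · rw [aeval_X]
      exact h.choose_spec
    · exact hl2 j
  · obtain ⟨j, hj⟩ : ∃ j, x j = y i := hbX (by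
      rw [hy]
      exact ((e i : {k : b // k ≠ ⟨1, h1b⟩}) : b).2)
    have h : ∃ i', y i' = x j := ⟨i, hj.symm⟩
    refine ⟨j, hj, ?_⟩
    dsimp only
    rw [dif_pos h]
    congr 1
    exact hyinj (h.choose_spec.trans hj)

/-- the affine linear forms which express the elements of the span -/
theorem exists_frame {E K : Type*} [Field E] [CommRing K] [Nontrivial K] [Algebra E K] {N : ℕ} (x : Fin N → K)
    {j0 : Fin N} (hj0 : x j0 = 1) :
    ∃ (s : ℕ) (y : Fin s → K) (l : Fin N → MvPolynomial (Fin s) E),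
      s + 1 ≤ N ∧
      (∀ j, (l j).totalDegree ≤ 1) ∧ (∀ j, aeval y (l j) = x j) ∧
      (∀ i, ∃ j, x j = y i ∧ l j = X i) ∧
      ∀ G : MvPolynomial (Fin s) E, G.totalDegree ≤ 1 → aeval y G = 0 → G = 0 := by
  classical
  obtain ⟨s, y, l, hs, hl1, hl2, hl3⟩ := exists_frame0 (E := E) x hj0
  have hev : ∀ G : MvPolynomial (Fin s) E, G.totalDegree ≤ 1 →
      aeval y G = ∑ i : Fin (s + 1), (Fin.cons (coeff 0 G) fun i => coeff (Finsupp.single i 1) G :
        Fin (s + 1) → E) i • (Fin.cons 1 y : Fin (s + 1) → K) i := by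
    intro G hG
    conv_lhs => rw [lin_form hG]
    rw [map_add, map_sum, Fin.sum_univ_succ, aeval_C]
    simp only [Fin.cons_zero, Fin.cons_succ, map_mul, aeval_C, aeval_X, Algebra.smul_def, mul_one]
  have hli : LinearIndependent E (Fin.cons 1 y : Fin (s + 1) → K) := by
    rw [linearIndependent_iff_card_le_finrank_span, Fintype.card_fin, Set.finrank]
    have hfin : Module.Finite E (Submodule.span E (Set.range (Fin.cons 1 y : Fin (s + 1) → K))) :=
      FiniteDimensional.span_of_finite E (Set.finite_range _)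
    refine hs.symm.le.trans (Submodule.finrank_mono ?_)
    rw [Submodule.span_le]
    rintro _ ⟨j, rfl⟩
    rw [← hl2, hev _ (hl1 j)]
    exact Submodule.sum_mem _ fun i _ => Submodule.smul_mem _ _ (Submodule.subset_span ⟨i, rfl⟩)
  refine ⟨s, y, l, ?_, hl1, hl2, hl3, fun G hG hG0 => ?_⟩
  · rw [← hs]
    have h1 := finrank_range_le_card (R := E) x
    rwa [Fintype.card_fin] at h1
  · rw [hev G hG] at hG0
    have h1 := Fintype.linearIndependent_iff.1 hli _ hG0
    rw [lin_form hG]
    have h2 := h1 0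
    rw [Fin.cons_zero] at h2
    rw [h2, map_zero, zero_add]
    refine Finset.sum_eq_zero fun i _ => ?_
    have h3 := h1 i.succ
    rw [Fin.cons_succ] at h3
    rw [h3, map_zero, zero_mul]

/-- the affine linear forms which express the elements of the span -/
theorem exists_frame1 {E K : Type*} [Field E] [CommRing K] [Nontrivial K] [Algebra E K] {N : ℕ} (x : Fin N → K)
    {j0 : Fin N} (hj0 : x j0 = 1) :
    ∃ (s : ℕ) (y : Fin s → K) (l : Fin N → MvPolynomial (Fin s) E),
      Module.finrank E (Submodule.span E (Set.range x)) = s + 1 ∧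
      (∀ j, (l j).totalDegree ≤ 1) ∧ (∀ j, aeval y (l j) = x j) ∧
      (∀ i, ∃ j, x j = y i ∧ l j = X i) ∧
      ∀ G : MvPolynomial (Fin s) E, G.totalDegree ≤ 1 → aeval y G = 0 → G = 0 := by
  classical
  obtain ⟨s, y, l, hs, hl1, hl2, hl3⟩ := exists_frame0 (E := E) x hj0
  have hev : ∀ G : MvPolynomial (Fin s) E, G.totalDegree ≤ 1 →
      aeval y G = ∑ i : Fin (s + 1), (Fin.cons (coeff 0 G) fun i => coeff (Finsupp.single i 1) G :
        Fin (s + 1) → E) i • (Fin.cons 1 y : Fin (s + 1) → K) i := by
    intro G hG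
    conv_lhs => rw [lin_form hG]
    rw [map_add, map_sum, Fin.sum_univ_succ, aeval_C]
    simp only [Fin.cons_zero, Fin.cons_succ, map_mul, aeval_C, aeval_X, Algebra.smul_def, mul_one]
  have hli : LinearIndependent E (Fin.cons 1 y : Fin (s + 1) → K) := by
    rw [linearIndependent_iff_card_le_finrank_span, Fintype.card_fin, Set.finrank]
    have hfin : Module.Finite E (Submodule.span E (Set.range (Fin.cons 1 y : Fin (s + 1) → K))) :=
      FiniteDimensional.span_of_finite E (Set.finite_range _)
    refine hs.symm.le.trans (Submodule.finrank_mono ?_)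
    rw [Submodule.span_le]
    rintro _ ⟨j, rfl⟩
    rw [← hl2, hev _ (hl1 j)]
    exact Submodule.sum_mem _ fun i _ => Submodule.smul_mem _ _ (Submodule.subset_span ⟨i, rfl⟩)
  refine ⟨s, y, l, ?_, hl1, hl2, hl3, fun G hG hG0 => ?_⟩
  · exact hs
  · rw [hev G hG] at hG0
    have h1 := Fintype.linearIndependent_iff.1 hli _ hG0
    rw [lin_form hG]
    have h2 := h1 0
    rw [Fin.cons_zero] at h2
    rw [h2, map_zero, zero_add]
    refine Finset.sum_eq_zero fun i _ => ?_
    have h3 := h1 i.succ
    rw [Fin.cons_succ] at h3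
    rw [h3, map_zero, zero_mul]

end Pool.Agent.U598.PS
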