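import Pool.Agent.U598.PS.Pts
import Pool.Agent.U598.MD.Geo

/-!
The number of the canonical forms and the degrees of the equations of a component, for finitely many
points.
-/

set_option autoImplicit false
set_option linter.overlappingInstances false
set_option linter.unusedSectionVars false

open FF MvPolynomial Pool.Agent.W602.GT Pool.Agent.Y184.NT Pool.Agent.U598.MD
open Pool.Agent.U598.IK (Ind exists_prod)

namespace Pool.Agent.U598.PS

theorem aev {E : Type} [Field E] {s : ℕ} (y : Fin s → E) (G : MvPolynomial (Fin s) E) :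
    eval y G = aeval y G := by
  rw [aeval_def, eval, coe_eval₂Hom]
  rfl

/-- isolated points -/
theorem isoP {S : Type} [Field S] {p m : ℕ} {ι : Type*} [Fintype ι] (dd : Fin p → ℕ)
    (P : ι → Fin p → S) (hinj : Function.Injective P) (F : Fin p → MvPolynomial (Fin p) S)
    (hFd : ∀ i, (F i).totalDegree ≤ dd i + 1) (hF0 : ∀ s i, aeval (P s) (F i) = 0) (τ : ι)
    (hmin : pm (P τ) ∈ (Ideal.span (Set.range F)).minimalPrimes) (c : ι → S) (hc : c τ ≠ 0)
    (hrel : ∀ α : Fin p →₀ ℕ, α.degree ≤ m → ∑ s, c s * ∏ j, P s j ^ α j = 0) :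
    m < ∑ i, dd i := by
  classical
  by_contra hcon
  push Not at hcon
  have hg : ∀ j, (X j - C (P τ j) : MvPolynomial (Fin p) S) ∈ pm (P τ) := by
    intro j
    rw [mem_pm, map_sub, aeval_X, aeval_C]
    exact sub_self _
  choose v hv t hvt using fun j => Pool.Agent.U598.IK.exists_pow_of_minimal hmin (hg j)
  refine hc (Pool.Agent.U598.IK.sep (Ω := S) (p := p) (m := m) dd hcon P hinj F hFd
    (fun s i => by rw [aev, hF0]) τ (∑ j, t j) (∏ j, v j) ?_ (fun j => ?_) c hrel)
  · rw [map_prod]
    refine Finset.prod_ne_zero_iff.2 fun j _ => ?_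
    rw [aev]
    intro h0
    exact hv j (mem_pm.2 h0)
  · have h1 : ∏ j, v j = v j * ∏ i ∈ Finset.univ.erase j, v i := by
      rw [Finset.mul_prod_erase _ _ (Finset.mem_univ j)]
    have h2 : ∑ i, t i + 1 = (t j + 1) + ∑ i ∈ Finset.univ.erase j, t i := by
      rw [← Finset.add_sum_erase _ _ (Finset.mem_univ j)]
      ring
    rw [h1, h2, pow_add]
    have h3 : v j * (∏ i ∈ Finset.univ.erase j, v i) * ((X j - C (P τ j)) ^ (t j + 1) *
        (X j - C (P τ j)) ^ (∑ i ∈ Finset.univ.erase j, t i)) =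
        ((∏ i ∈ Finset.univ.erase j, v i) *
        (X j - C (P τ j)) ^ (∑ i ∈ Finset.univ.erase j, t i)) *
        (v j * (X j - C (P τ j)) ^ (t j + 1)) := by ring
    rw [h3]
    exact Ideal.mul_mem_left _ _ (hvt j)

/-- the same with the polynomials indexed by another set -/
theorem isoP' {S : Type} [Field S] {p m : ℕ} {ι κ : Type*} [Fintype ι] [Fintype κ]
    (hκ : Fintype.card κ = p) (dd : κ → ℕ)
    (P : ι → Fin p → S) (hinj : Function.Injective P) (F : κ → MvPolynomial (Fin p) S)
    (hFd : ∀ i, (F i).totalDegree ≤ dd i + 1) (hF0 : ∀ s i, aeval (P s) (F i) = 0) (τ : ι)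
    (hmin : pm (P τ) ∈ (Ideal.span (Set.range F)).minimalPrimes) (c : ι → S) (hc : c τ ≠ 0)
    (hrel : ∀ α : Fin p →₀ ℕ, α.degree ≤ m → ∑ s, c s * ∏ j, P s j ^ α j = 0) :
    m < ∑ i, dd i := by
  obtain ⟨e⟩ : Nonempty (Fin p ≃ κ) := by
    rw [← hκ]
    exact ⟨(Fintype.equivFin κ).symm⟩
  have h1 := isoP (fun i => dd (e i)) P hinj (fun i => F (e i)) (fun i => hFd _)
    (fun s i => hF0 s _) τ (by
      have h2 : Set.range (fun i => F (e i)) = Set.range F := by
        have h3 : (fun i => F (e i)) = F ∘ e := rfl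
        rw [h3, e.surjective.range_comp]
      rw [h2]
      exact hmin) c hc hrel
  rwa [e.sum_comp dd] at h1

/-- **The components of the systems of equations, positive dimension.** -/
theorem geoP {V E K : Type} [Field V] [Field E] [Field K] [Algebra ℂ V] [Algebra ℂ E]
    [Algebra ℂ K] [Algebra V K] [Algebra E K] [IsScalarTower ℂ V K] [IsScalarTower ℂ E K]
    [Algebra.EssFiniteType ℂ V] [Algebra.EssFiniteType ℂ E]
    {n m N s c : ℕ} (hn : Algebra.trdeg ℂ V = n)
    {ω : (Fin n → Derivation ℂ V V) → V}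
    (hω : IsPluri 1 ω) (hω0 : ∃ D, ω D ≠ 0) {x : Fin N → V} {j0 : Fin N} (hj0 : x j0 = 1)
    (hreg : ∀ (f : Fin m → Fin N) (P : Place ℂ V), Divisorial n P →
      RegAt P (fun D => (∏ k, x (f k)) * ω D))
    (hx : IntermediateField.adjoin ℂ (Set.range x) = ⊤)
    {f : Fin c → MvPolynomial (Fin N) ℂ}
    (hcomp : RingHom.ker (aeval x : MvPolynomial (Fin N) ℂ →ₐ[ℂ] V) ∈
      (Ideal.span (insert (X j0 - 1) (Set.range f))).minimalPrimes)
    {y : Fin s → K} {l : Fin N → MvPolynomial (Fin s) E}
    (hl0 : l j0 = 1) (hl2 : ∀ j, aeval y (l j) = algebraMap V K (x j))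
    (hl3 : ∀ i, ∃ j, algebraMap V K (x j) = y i ∧ l j = X i)
    {ι : Type} [Fintype ι] (dd : ι → ℕ) (P : ι → MvPolynomial (Fin s) E)
    (hPd : ∀ i, (P i).totalDegree ≤ dd i + 1) {κ : ℕ} (hcard : Fintype.card ι + (κ + 1) = s)
    {𝔮 : Ideal (MvPolynomial (Fin s) E)} (hq : 𝔮 ∈ (Ideal.span (Set.range P)).minimalPrimes)
    (hqle : 𝔮 ≤ RingHom.ker (aeval y : MvPolynomial (Fin s) E →ₐ[E] K)) (hκ : Ind 𝔮 (κ + 1))
    (hκ' : ¬ Ind 𝔮 (κ + 1 + 1)) (hfq : ∀ i, aeval l (f i) ∈ 𝔮) : m < ∑ i, dd i := by
  classical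
  have hcE : CharZero E := charZero_of_injective_algebraMap (algebraMap ℂ E).injective
  have hqp : 𝔮.IsPrime := hq.isPrime
  have hprime : (RingHom.ker (aeval y : MvPolynomial (Fin s) E →ₐ[E] K)).IsPrime :=
    RingHom.ker_isPrime _
  -- the generic point of the component
  obtain ⟨ρ, hρ⟩ : ∃ ρ : MvPolynomial (Fin N) ℂ →ₐ[ℂ] MvPolynomial (Fin s) E, ρ = aeval l :=
    ⟨_, rfl⟩
  have hρX : ∀ j, ρ (X j) = l j := fun j => by rw [hρ, aeval_X]
  have hcompat : ∀ F : MvPolynomial (Fin N) ℂ, aeval y (ρ F) = algebraMap V K (aeval x F) := by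
    intro F
    induction F using MvPolynomial.induction_on with
    | C c =>
      rw [aeval_C, ← algebraMap_eq, AlgHom.commutes,
        IsScalarTower.algebraMap_apply ℂ E (MvPolynomial (Fin s) E), AlgHom.commutes,
        ← IsScalarTower.algebraMap_apply ℂ E K, ← IsScalarTower.algebraMap_apply ℂ V K]
    | add p q hp hq => rw [map_add, map_add, map_add, map_add, hp, hq]
    | mul_X p j hp => rw [map_mul, map_mul, map_mul, map_mul, hp, hρX, hl2, aeval_X]
  let A := MvPolynomial (Fin s) E ⧸ 𝔮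
  have hdom : IsDomain A := Ideal.Quotient.isDomain 𝔮
  let R := FractionRing A
  obtain ⟨η, hη⟩ : ∃ η : Fin s → R, η = fun i => algebraMap A R (Ideal.Quotient.mk 𝔮 (X i)) :=
    ⟨_, rfl⟩
  have haev : ∀ G : MvPolynomial (Fin s) E,
      aeval η G = algebraMap A R (Ideal.Quotient.mk 𝔮 G) := by
    intro G
    induction G using MvPolynomial.induction_on with
    | C c =>
      rw [aeval_C]
      change algebraMap E R c = algebraMap A R (algebraMap E A c)
      rw [← IsScalarTower.algebraMap_apply E A R]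
    | add p q hp hq => rw [map_add, map_add, map_add, hp, hq]
    | mul_X p j hp => rw [map_mul, map_mul, map_mul, hp, aeval_X, hη]
  have hker : RingHom.ker (aeval η : MvPolynomial (Fin s) E →ₐ[E] R) = 𝔮 := by
    ext G
    rw [RingHom.mem_ker]
    change aeval η G = 0 ↔ _
    rw [haev, map_eq_zero_iff _ (IsFractionRing.injective A R), Ideal.Quotient.eq_zero_iff_mem]
  have hgenR : IntermediateField.adjoin E (Set.range η) = ⊤ := by
    rw [eq_top_iff]
    intro r _
    have h1 : ∀ a : A, algebraMap A R a ∈ IntermediateField.adjoin E (Set.range η) := by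
      intro a
      obtain ⟨G, rfl⟩ := Ideal.Quotient.mk_surjective a
      rw [← haev]
      have h2 : aeval η G ∈ Algebra.adjoin E (Set.range η) := by
        rw [Algebra.adjoin_range_eq_range_aeval]
        exact ⟨G, rfl⟩
      exact IntermediateField.algebra_adjoin_le_adjoin E _ h2
    obtain ⟨a, b, -, rfl⟩ := IsFractionRing.div_surjective (A := A) r
    exact IntermediateField.div_mem _ (h1 a) (h1 b)
  have h3 : ∀ G : MvPolynomial (Fin N) ℂ,
      aeval (fun j => aeval η (l j)) G = aeval η (ρ G) := by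
    intro G
    induction G using MvPolynomial.induction_on with
    | C c =>
      rw [aeval_C, ← algebraMap_eq, AlgHom.commutes,
        IsScalarTower.algebraMap_apply ℂ E (MvPolynomial (Fin s) E), AlgHom.commutes,
        ← IsScalarTower.algebraMap_apply ℂ E R]
    | add p q hp hq => rw [map_add, map_add, map_add, hp, hq]
    | mul_X p j hp => rw [map_mul, map_mul, map_mul, hp, hρX, aeval_X]
  have h4 : RingHom.ker (aeval x : MvPolynomial (Fin N) ℂ →ₐ[ℂ] V) ≤
      𝔮.comap (ρ : MvPolynomial (Fin N) ℂ →+* MvPolynomial (Fin s) E) := by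
    refine hcomp.2 ⟨Ideal.IsPrime.comap _, ?_⟩ ?_
    · rw [Ideal.span_le]
      rintro _ (rfl | ⟨i, rfl⟩)
      · change ρ (X j0 - 1) ∈ 𝔮
        rw [map_sub, hρX, hl0, map_one, sub_self]
        exact 𝔮.zero_mem
      · change ρ (f i) ∈ 𝔮
        rw [hρ]
        exact hfq i
    · intro G hG
      have h5 : aeval y (ρ G) = 0 := hqle hG
      rw [hcompat] at h5
      exact (map_eq_zero _).1 h5
  have h2 : ∀ G : MvPolynomial (Fin N) ℂ, aeval x G = 0 ↔
      aeval (fun j => aeval η (l j)) G = 0 := by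
    intro G
    rw [h3]
    constructor
    · intro h5
      have h6 : ρ G ∈ RingHom.ker (aeval η : MvPolynomial (Fin s) E →ₐ[E] R) := by
        rw [hker]
        exact h4 h5
      exact h6
    · intro h5
      have h6 : ρ G ∈ RingHom.ker (aeval η : MvPolynomial (Fin s) E →ₐ[E] R) := h5
      rw [hker] at h6
      have h7 : aeval y (ρ G) = 0 := hqle h6
      rw [hcompat] at h7
      exact (map_eq_zero _).1 h7
  obtain ⟨φ, hφ⟩ := Pool.Agent.Y362.NT.exists_hom x (fun j => aeval η (l j)) hx h2
  let _ : Algebra V R := φ.toRingHom.toAlgebra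
  have : IsScalarTower ℂ V R := IsScalarTower.of_algebraMap_eq fun c => (φ.commutes c).symm
  -- the coordinates
  obtain ⟨T, -, hT⟩ := hκ.coords hqp
  have hind : AlgebraicIndependent E (fun i => η (T i)) := by
    rw [algebraicIndependent_iff]
    intro Q hQ
    by_contra hne
    refine hT Q hne ?_
    have h5 : aeval η (aeval (fun i => (X (T i) : MvPolynomial (Fin s) E)) Q) = 0 := by
      have h6 := comp_aeval_apply (φ := (aeval η : MvPolynomial (Fin s) E →ₐ[E] R))
        (fun i => (X (T i) : MvPolynomial (Fin s) E)) Q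
      rw [h6]
      simp only [aeval_X]
      exact hQ
    rw [← hker]
    exact h5
  have halg : Algebra.IsAlgebraic (IntermediateField.adjoin E (Set.range fun i => η (T i))) R := by
    have h5 : ∀ i, IsAlgebraic (Algebra.adjoin E (Set.range fun i => η (T i))) (η i) := by
      intro i
      by_contra hcon
      have h6 := (hind.option_iff_transcendental (η i)).2 hcon
      have h7 : AlgebraicIndependent E ((fun o : Option (Fin (κ + 1)) =>
          o.elim (η i) fun i => η (T i)) ∘ (finSuccEquiv (κ + 1))) :=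
        h6.comp _ (_root_.finSuccEquiv (κ + 1)).injective
      apply hκ'
      refine ⟨fun b => X ((_root_.finSuccEquiv (κ + 1) b).elim i T), fun Q hQ hmem => hQ ?_⟩
      rw [algebraicIndependent_iff] at h7
      apply h7
      rw [← hker] at hmem
      have h8 : aeval η (aeval (fun b => (X ((_root_.finSuccEquiv (κ + 1) b).elim i T) :
          MvPolynomial (Fin s) E)) Q) = 0 := hmem
      have h9 := comp_aeval_apply (φ := (aeval η : MvPolynomial (Fin s) E →ₐ[E] R))
        (fun b => (X ((_root_.finSuccEquiv (κ + 1) b).elim i T) : MvPolynomial (Fin s) E)) Q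
      rw [h9] at h8
      rw [← h8]
      congr 2
      funext b
      rw [aeval_X]
      change ((_root_.finSuccEquiv (κ + 1)) b).elim (η i) (fun i => η (T i)) = _
      rcases (_root_.finSuccEquiv (κ + 1)) b with _ | b
      · rfl
      · rfl
    exact alg_of_gen hgenR h5
  refine posdim (V := V) (E := E) (R := R) hn hω hω0 hj0 hreg η (fun i => ?_) hgenR T hind halg dd P
    hPd hcard (by
      rw [hker]
      exact hq)
  obtain ⟨j, -, hj⟩ := hl3 i
  refine ⟨j, ?_⟩
  change φ (x j) = η i
  rw [hφ, hj, aeval_X]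

end Pool.Agent.U598.PS
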