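import Pool.Agent.U598.PS.Step

/-!
The growth of the dimension of a space of functions of bounded degree on an affine variety.
-/

set_option autoImplicit false
set_option linter.unusedSectionVars false
set_option linter.overlappingInstances false

open MvPolynomial Pool.Agent.U598.MD

namespace Pool.Agent.U598.PS

/-- a maximal set of elements of `T` which are independent over the rational functions -/
theorem frameT {s : ℕ} (τ k : ℕ) : ∀ (E F : Type) [Field E] [Infinite E] [Field F] [Algebra E F]
    (z : Fin k → F) (y : Fin s → F) (T : Set F) (_ : AlgebraicIndependent E z)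
    (_ : IntermediateField.adjoin E (Set.range y) = ⊤)
    (_ : ∀ i, IntOver E (HS z) (Polynomial.X * Polynomial.C (y i)))
    (_ : ∀ w ∈ T, w ∈ Submodule.span E (mon y τ)),
    ∃ (ρ : ℕ) (f : Fin ρ → F), (∀ i, f i ∈ T) ∧
      (∀ P : Fin ρ → MvPolynomial (Fin k) E, ∑ i, aeval z (P i) * f i = 0 → ∀ i, P i = 0) ∧
      Module.finrank E (Submodule.span E T) ≤ (τ + 1) ^ k * ρ := by
  induction k with
  | zero =>
    intro E F _ _ _ _ z y T hz hgen hint hT
    have hfin : Module.Finite E (Submodule.span E T) := by
      have h1 : Module.Finite E (Submodule.span E (mon y τ)) :=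
        FiniteDimensional.span_of_finite E (mon_finite y τ)
      exact Submodule.finiteDimensional_of_le (Submodule.span_le.2 hT)
    obtain ⟨f, hf1, hf2, hf3⟩ := Submodule.exists_fun_fin_finrank_span_eq E T
    refine ⟨_, f, hf1, fun P hP i => ?_, ?_⟩
    · rw [Fintype.linearIndependent_iff] at hf3
      have h1 := hf3 (fun i => (P i).coeff 0) (by
        rw [← hP]
        refine Finset.sum_congr rfl fun i _ => ?_
        rw [eq_C_of_isEmpty (P i), aeval_C, coeff_C, if_pos rfl, Algebra.smul_def])
      rw [eq_C_of_isEmpty (P i), h1 i, map_zero]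
    · rw [pow_zero, one_mul]
  | succ k ih =>
    intro E F _ _ _ _ z y T hz hgen hint hT
    let E' := IntermediateField.adjoin E {z 0}
    have hinf : Infinite E' := Infinite.of_injective _ (algebraMap E E').injective
    have hgen' : IntermediateField.adjoin E' (Set.range y) = ⊤ := by
      rw [eq_top_iff]
      intro x _
      have h3 : x ∈ IntermediateField.adjoin E (Set.range y) := by
        rw [hgen]
        trivial
      have h4 : IntermediateField.adjoin E (Set.range y) ≤
          (IntermediateField.adjoin E' (Set.range y)).restrictScalars E := by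
        rw [IntermediateField.adjoin_le_iff]
        exact IntermediateField.subset_adjoin E' _
      exact h4 h3
    have hz0 : z 0 ∈ E' := IntermediateField.mem_adjoin_simple_self E (z 0)
    obtain ⟨ρ, f, hf1, hf2, hf3⟩ := ih E' F (fun i => z i.succ) y T (tail_indep hz) hgen'
      (fun i => (hint i).base (fun c => by
        have h1 : algebraMap E (Polynomial F) c = algebraMap E' (Polynomial F) (algebraMap E E' c) := by
          rw [IsScalarTower.algebraMap_apply E F (Polynomial F),
            IsScalarTower.algebraMap_apply E' F (Polynomial F),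
            ← IsScalarTower.algebraMap_apply E E' F]
        rw [h1]
        exact (intAlg E' _).algebraMap_mem _) (by
        rintro x (rfl | ⟨j, rfl⟩)
        · exact IntOver.mem (Set.mem_insert _ _)
        · refine Fin.cases ?_ (fun j => ?_) j
          · have h1 : (Polynomial.C (z 0) : Polynomial F) =
                algebraMap E' (Polynomial F) ⟨z 0, hz0⟩ := rfl
            change Polynomial.X * Polynomial.C (z 0) ∈ intAlg E' _
            rw [h1]
            exact (intAlg E' _).mul_mem (IntOver.mem (Set.mem_insert _ _))
              ((intAlg E' _).algebraMap_mem _)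
          · exact IntOver.mem (Set.mem_insert_of_mem _ ⟨j, rfl⟩)))
      (fun w hw => Submodule.span_subset_span E E' (mon y τ) (hT w hw))
    refine ⟨ρ, f, hf1, fun P hP => ?_, ?_⟩
    · let φ : MvPolynomial (Fin (k + 1)) E →ₐ[E] MvPolynomial (Fin k) E' :=
        aeval (Fin.cons (C ⟨z 0, hz0⟩) X)
      have h1 : ∀ Q, aeval (fun i : Fin k => z i.succ) (φ Q) = aeval z Q := by
        intro Q
        induction Q using MvPolynomial.induction_on with
        | C c =>
          have h2 : φ (C c) = C (algebraMap E E' c) := by
            change aeval _ (C c) = _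
            rw [aeval_C, IsScalarTower.algebraMap_apply E E' (MvPolynomial (Fin k) E'),
              MvPolynomial.algebraMap_eq]
          rw [h2, aeval_C, aeval_C, ← IsScalarTower.algebraMap_apply E E' F]
        | add p q hp hq => rw [map_add, map_add, map_add, hp, hq]
        | mul_X p j hp =>
          rw [map_mul, map_mul, map_mul, hp, aeval_X]
          congr 1
          rw [aeval_X]
          refine Fin.cases ?_ (fun j => ?_) j
          · rw [Fin.cons_zero, aeval_C]
            rfl
          · rw [Fin.cons_succ, aeval_X]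
      have h2 := hf2 (fun i => φ (P i)) (by
        rw [← hP]
        exact Finset.sum_congr rfl fun i _ => by rw [h1])
      intro i
      have h3 := h1 (P i)
      rw [h2 i, map_zero] at h3
      exact (algebraicIndependent_iff.1 hz) _ h3.symm
    · refine (stepT hz hgen hint τ hT E' (fun P => ?_) (fun b => ?_)).trans ?_
      · have h1 := Subalgebra.aeval_coe E'.toSubalgebra (⟨z 0, hz0⟩ : E'.toSubalgebra) P
        exact ⟨(Polynomial.aeval (⟨z 0, hz0⟩ : E'.toSubalgebra) P : E'.toSubalgebra), h1.symm⟩
      · obtain ⟨P, Q, hPQ⟩ := (IntermediateField.mem_adjoin_simple_iff E (b : F)).1 b.2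
        by_cases hQ : Polynomial.aeval (z 0) Q = 0
        · refine ⟨0, 1, by rw [map_one]; exact one_ne_zero, ?_⟩
          rw [map_one, mul_one, map_zero]
          change (b : F) = 0
          rw [hPQ, hQ, div_zero]
        · refine ⟨P, Q, hQ, ?_⟩
          change (b : F) * _ = _
          rw [hPQ, div_mul_cancel₀ _ hQ]
      · rw [pow_succ', mul_assoc]
        exact Nat.mul_le_mul_left _ hf3

section

variable {E F : Type*} [Field E] [Field F] [Algebra E F]

/-- the number of the products of the monomials with a set which is independent -/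
theorem card_prod {D e ρ : ℕ} (V : Submodule E F) [Module.Finite E V] (a : Fin D → F)
    (f : Fin ρ → F)
    (ha : ∀ P : Fin ρ → MvPolynomial (Fin D) E, ∑ i, aeval a (P i) * f i = 0 → ∀ i, P i = 0)
    (hV : ∀ α : Fin D →₀ ℕ, α.degree ≤ e → ∀ i, (∏ j, a j ^ α j) * f i ∈ V) :
    (D + e).choose e * ρ ≤ Module.finrank E V := by
  classical
  obtain ⟨J, hJ⟩ : ∃ J : Finset (Fin (D + 1) →₀ ℕ), J = Finset.finsuppAntidiag Finset.univ e :=
    ⟨_, rfl⟩
  have hcard : J.card = (D + e).choose e := by
    rw [hJ, Finset.card_finsuppAntidiag_nat_eq_choose, Finset.card_univ, Fintype.card_fin]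
    congr 1
    omega
  have hsum : ∀ β ∈ J, β 0 + (Finsupp.tail β).degree = e := by
    intro β hβ
    rw [hJ, Finset.mem_finsuppAntidiag] at hβ
    rw [← hβ.1, Finsupp.degree_eq_sum, Fin.sum_univ_succ]
    rfl
  have hinj : ∀ β ∈ J, ∀ β' ∈ J, Finsupp.tail β = Finsupp.tail β' → β = β' := by
    intro β hβ β' hβ' h
    have h1 := hsum β hβ
    have h2 := hsum β' hβ'
    rw [h] at h1
    have h3 : β 0 = β' 0 := by omega
    rw [← Finsupp.cons_tail β, ← Finsupp.cons_tail β', h, h3]
  let g : J × Fin ρ → V := fun β =>
    ⟨(∏ i, a i ^ (Finsupp.tail (β.1 : Fin (D + 1) →₀ ℕ)) i) * f β.2,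
      hV _ (by have := hsum _ β.1.2; omega) _⟩
  have hli : LinearIndependent E g := by
    rw [Fintype.linearIndependent_iff]
    rintro c hc ⟨β0, i0⟩
    obtain ⟨P, hP⟩ : ∃ P : Fin ρ → MvPolynomial (Fin D) E,
      P = fun i => ∑ β : J, monomial (Finsupp.tail (β : Fin (D + 1) →₀ ℕ)) (c (β, i)) := ⟨_, rfl⟩
    have hP0 : P i0 = 0 := by
      refine ha P ?_ i0
      have h1 := congrArg (fun v : V => (v : F)) hc
      simp only [ZeroMemClass.coe_zero, Submodule.coe_sum, Submodule.coe_smul] at h1
      rw [← h1, Fintype.sum_prod_type_right]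
      refine Finset.sum_congr rfl fun i _ => ?_
      rw [hP, map_sum, Finset.sum_mul]
      refine Finset.sum_congr rfl fun β _ => ?_
      rw [aeval_monomial, Algebra.smul_def, Finsupp.prod_fintype _ _ fun _ => pow_zero _, mul_assoc]
    have h2 := congrArg (coeff (Finsupp.tail (β0 : Fin (D + 1) →₀ ℕ))) hP0
    rw [hP, coeff_sum, coeff_zero, Finset.sum_eq_single β0] at h2
    · rwa [coeff_monomial, if_pos rfl] at h2
    · intro β _ hβ
      rw [coeff_monomial, if_neg]
      intro h
      exact hβ (Subtype.ext (hinj _ β.2 _ β0.2 h))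
    · intro h
      exact absurd (Finset.mem_univ _) h
  have h1 := hli.fintype_card_le_finrank
  rwa [Fintype.card_prod, Fintype.card_coe, Fintype.card_fin, hcard] at h1

end

end Pool.Agent.U598.PS
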