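import Pool.Agent.U598.PS.Main

/-!
Few generic points of a component of a complete intersection impose independent conditions on the
forms which give canonical forms: points with values in any field.
-/

set_option autoImplicit false
set_option linter.overlappingInstances false
set_option linter.unusedSectionVars false

open FF MvPolynomial Pool.Agent.W602.GT Pool.Agent.Y184.NT

namespace Pool.Agent.U598.PS

/-- the degrees in any order -/
theorem main' {V E : Type} [Field V] [Field E] [Algebra ℂ V] [Algebra ℂ E]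
    [Algebra.EssFiniteType ℂ V] [Algebra.EssFiniteType ℂ E]
    {n m p c : ℕ} (hp : 1 ≤ p) (hn : Algebra.trdeg ℂ V = n)
    {ω : (Fin n → Derivation ℂ V V) → V}
    (hω : IsPluri 1 ω) (hω0 : ∃ D, ω D ≠ 0) {x : Fin (p + 1) → V} {j0 : Fin (p + 1)}
    (hj0 : x j0 = 1)
    (hreg : ∀ (f : Fin m → Fin (p + 1)) (P : Place ℂ V), Divisorial n P →
      RegAt P (fun D => (∏ k, x (f k)) * ω D))
    (hx : IntermediateField.adjoin ℂ (Set.range x) = ⊤)
    {δ : Fin c → ℕ} (hsum : ∑ j, δ j ≤ m + p + 1)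
    {f : Fin c → MvPolynomial (Fin (p + 1)) ℂ} (hf : ∀ i : Fin c, (f i).totalDegree ≤ δ i)
    (hcomp : RingHom.ker (aeval x : MvPolynomial (Fin (p + 1)) ℂ →ₐ[ℂ] V) ∈
      (Ideal.span (insert (X j0 - 1) (Set.range f))).minimalPrimes)
    {ι : Type} [Fintype ι] [Nonempty ι] (σ : ι → (V →ₐ[ℂ] E)) (hσ : Function.Injective σ)
    (lam : ι → E) (hlam : ∀ i, lam i ≠ 0)
    (hrel : ∀ f : Fin m → Fin (p + 1), ∑ i, lam i * ∏ k, σ i (x (f k)) = 0) :
    ∏ j, δ j ≤ (2 * p) ^ c * ((4 * p) ^ (p * (p + 1) / 2) * Fintype.card ι) := by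
  classical
  obtain ⟨τ, hτ⟩ : ∃ τ : Equiv.Perm (Fin c), Monotone (δ ∘ τ) :=
    ⟨Tuple.sort δ, Tuple.monotone_sort δ⟩
  obtain ⟨δ', hδ'⟩ : ∃ δ' : ℕ → ℕ, δ' = fun j => if h : j < c then δ (τ ⟨j, h⟩) else 0 := ⟨_, rfl⟩
  have hδi : ∀ i : Fin c, δ' i = δ (τ i) := fun i => by
    rw [hδ']
    dsimp only
    rw [dif_pos i.2]
  have hsum' : ∑ j ∈ Finset.range c, δ' j = ∑ j, δ j := by
    rw [← Fin.sum_univ_eq_sum_range, Finset.sum_congr rfl fun i _ => hδi i]
    exact Equiv.sum_comp τ δ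
  have hprod' : ∏ j ∈ Finset.range c, δ' j = ∏ j, δ j := by
    rw [← Fin.prod_univ_eq_prod_range, Finset.prod_congr rfl fun i _ => hδi i]
    exact Equiv.prod_comp τ δ
  have hrange : Set.range (fun i => f (τ i)) = Set.range f := by
    have h3 : (fun i => f (τ i)) = f ∘ τ := rfl
    rw [h3, τ.surjective.range_comp]
  rw [← hprod']
  refine main (V := V) (E := E) (m := m) hp hn hω hω0 hj0 hreg hx (δ := δ')
    (fun i j hij hj => ?_) ?_ (f := fun i => f (τ i)) (fun i => ?_) ?_ σ hσ lam hlam hrel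
  · have h1 := hδi ⟨i, lt_of_le_of_lt hij hj⟩
    have h2 := hδi ⟨j, hj⟩
    dsimp only at h1 h2
    rw [h1, h2]
    exact hτ (show (⟨i, lt_of_le_of_lt hij hj⟩ : Fin c) ≤ ⟨j, hj⟩ from hij)
  · rw [hsum']
    exact hsum
  · rw [hδi]
    exact hf _
  · rw [hrange]
    exact hcomp

/-- **Few generic points impose independent conditions.** -/
theorem inx {V Ω : Type} [Field V] [Field Ω] [Algebra ℂ V] [Algebra ℂ Ω]
    [Algebra.EssFiniteType ℂ V] {n m p c : ℕ} (hp : 1 ≤ p) (hn : Algebra.trdeg ℂ V = n)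
    {ω : (Fin n → Derivation ℂ V V) → V}
    (hω : IsPluri 1 ω) (hω0 : ∃ D, ω D ≠ 0) {x : Fin (p + 1) → V} {j0 : Fin (p + 1)}
    (hj0 : x j0 = 1)
    (hreg : ∀ (f : Fin m → Fin (p + 1)) (P : Place ℂ V), Divisorial n P →
      RegAt P (fun D => (∏ k, x (f k)) * ω D))
    (hx : IntermediateField.adjoin ℂ (Set.range x) = ⊤)
    {δ : Fin c → ℕ} (hsum : ∑ j, δ j ≤ m + p + 1)
    {f : Fin c → MvPolynomial (Fin (p + 1)) ℂ} (hf : ∀ i : Fin c, (f i).totalDegree ≤ δ i)
    (hcomp : RingHom.ker (aeval x : MvPolynomial (Fin (p + 1)) ℂ →ₐ[ℂ] V) ∈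
      (Ideal.span (insert (X j0 - 1) (Set.range f))).minimalPrimes)
    (S : Finset (V →ₐ[ℂ] Ω)) (hS : S.Nonempty) (lam : (V →ₐ[ℂ] Ω) → Ω)
    (hlam : ∀ σ ∈ S, lam σ ≠ 0)
    (hcard : (2 * p) ^ c * ((4 * p) ^ (p * (p + 1) / 2) * S.card) < ∏ j, δ j) :
    ¬ ∀ f : Fin m → Fin (p + 1), ∑ σ ∈ S, lam σ * ∏ k, σ (x (f k)) = 0 := by
  classical
  intro hrel
  obtain ⟨T, hT⟩ : ∃ T : Set Ω, T = (⋃ σ ∈ S, Set.range fun j => σ (x j)) ∪ lam '' S := ⟨_, rfl⟩
  have hTfin : T.Finite := by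
    rw [hT]
    exact (S.finite_toSet.biUnion fun σ _ => Set.finite_range _).union
      (S.finite_toSet.image _)
  obtain ⟨E, hE⟩ : ∃ E : IntermediateField ℂ Ω, E = IntermediateField.adjoin ℂ T := ⟨_, rfl⟩
  have hessE : Algebra.EssFiniteType ℂ E := by
    rw [IntermediateField.essFiniteType_iff, hE]
    exact IntermediateField.fg_adjoin_of_finite hTfin
  have hTE : ∀ t ∈ T, t ∈ E := fun t ht => by
    rw [hE]
    exact IntermediateField.subset_adjoin _ _ ht
  have hσE : ∀ σ ∈ S, ∀ a : V, σ a ∈ E := by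
    intro σ hσ a
    have h1 : a ∈ IntermediateField.adjoin ℂ (Set.range x) := by
      rw [hx]
      trivial
    induction h1 using IntermediateField.adjoin_induction with
    | mem a ha =>
      obtain ⟨j, rfl⟩ := ha
      refine hTE _ ?_
      rw [hT]
      exact Or.inl (Set.mem_biUnion (show σ ∈ (S : Set (V →ₐ[ℂ] Ω)) from hσ) ⟨j, rfl⟩)
    | algebraMap a =>
      rw [AlgHom.commutes]
      exact E.algebraMap_mem a
    | add a b _ _ ha hb =>
      rw [map_add]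
      exact E.add_mem ha hb
    | inv a _ ha =>
      rw [map_inv₀]
      exact E.inv_mem ha
    | mul a b _ _ ha hb =>
      rw [map_mul]
      exact E.mul_mem ha hb
  let σ' : S → (V →ₐ[ℂ] E) := fun σ => AlgHom.codRestrict (σ : V →ₐ[ℂ] Ω) E.toSubalgebra
    fun a => hσE _ σ.2 a
  have hσ' : ∀ (σ : S) (a : V), ((σ' σ a : E) : Ω) = (σ : V →ₐ[ℂ] Ω) a := fun σ a => rfl
  have hne : Nonempty S := hS.to_subtype
  have h1 := main' (V := V) (E := E) (m := m) hp hn hω hω0 hj0 hreg hx hsum hf hcomp σ'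
    (fun σ τ h => by
      apply Subtype.ext
      ext a
      rw [← hσ', ← hσ', h])
    (fun σ => ⟨lam σ, hTE _ (by rw [hT]; exact Or.inr ⟨σ, σ.2, rfl⟩)⟩)
    (fun σ h => hlam σ σ.2 (congrArg Subtype.val h)) (fun g => by
      apply Subtype.ext
      have h2 := hrel g
      rw [← Finset.sum_coe_sort] at h2
      rw [ZeroMemClass.coe_zero, ← h2]
      push_cast
      refine Finset.sum_congr rfl fun σ _ => ?_
      congr 1)
  rw [Fintype.card_coe] at h1
  omega

end Pool.Agent.U598.PS
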