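import Pool.Agent.U598.PS.Geo
import Pool.Agent.U598.PS.Frame
import Pool.Agent.U598.MD.Comb

/-!
Few generic points of a component of a complete intersection impose independent conditions on the
forms which give canonical forms.
-/

set_option autoImplicit false
set_option linter.overlappingInstances false
set_option linter.unusedSectionVars false

open FF MvPolynomial Pool.Agent.W602.GT Pool.Agent.Y184.NT Pool.Agent.U598.MD
open Pool.Agent.U598.IK (Ind exists_prod)

namespace Pool.Agent.U598.PS

/-- the product of the degrees -/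
theorem prod_idx {s c p : ℕ} (hp : 1 ≤ p) (e δ : ℕ → ℕ) (he1 : ∀ k, 1 ≤ k → k ≤ s → 1 ≤ e k)
    (h : ∀ i < c, 2 * p < δ i → c - i ≤ s ∧ δ i ≤ 2 * p * e (c - i)) :
    ∏ j ∈ Finset.range c, δ j ≤ (2 * p) ^ c * ∏ k ∈ Finset.Icc 1 s, e k := by
  have h1 : ∀ j ∈ Finset.range c, δ j ≤ 2 * p * (if c - j ≤ s then e (c - j) else 1) := by
    intro j hj
    rw [Finset.mem_range] at hj
    by_cases h' : 2 * p < δ j
    · obtain ⟨h2, h3⟩ := h j hj h'
      rwa [if_pos h2]
    · refine le_trans (not_lt.1 h') (Nat.le_mul_of_pos_right _ ?_)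
      split_ifs with h2
      · exact he1 _ (by omega) h2
      · exact one_pos
  calc ∏ j ∈ Finset.range c, δ j
      ≤ ∏ j ∈ Finset.range c, (2 * p * (if c - j ≤ s then e (c - j) else 1)) :=
        Finset.prod_le_prod' h1
    _ = (2 * p) ^ c * ∏ j ∈ Finset.range c, (if c - j ≤ s then e (c - j) else 1) := by
        rw [Finset.prod_mul_distrib, Finset.prod_const, Finset.card_range]
    _ = (2 * p) ^ c * ∏ k ∈ Finset.range c, (if k + 1 ≤ s then e (k + 1) else 1) := by
        congr 1
        rw [← Finset.prod_range_reflect]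
        refine Finset.prod_congr rfl fun j hj => ?_
        rw [Finset.mem_range] at hj
        rw [show c - (c - 1 - j) = j + 1 by omega]
    _ ≤ (2 * p) ^ c * ∏ k ∈ Finset.Icc 1 s, e k := by
        refine Nat.mul_le_mul_left _ ?_
        rw [← Finset.prod_filter]
        have h2 : ∏ k ∈ (Finset.range c).filter (fun k => k + 1 ≤ s), e (k + 1) =
            ∏ k ∈ ((Finset.range c).filter (fun k => k + 1 ≤ s)).image (· + 1), e k := by
          rw [Finset.prod_image]
          intro a _ b _ h
          simpa using h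
        rw [h2]
        refine Finset.prod_le_prod_of_subset_of_one_le' ?_ ?_
        · intro k hk
          rw [Finset.mem_image] at hk
          obtain ⟨a, ha, rfl⟩ := hk
          rw [Finset.mem_filter] at ha
          rw [Finset.mem_Icc]
          omega
        · intro k hk _
          rw [Finset.mem_Icc] at hk
          exact he1 k hk.1 hk.2

/-- the growth, for finitely many points with large dimensions -/
theorem prod_le_card {E : Type} [Field E] [Infinite E] {s p : ℕ} (hp : 1 ≤ p) (hsp : s ≤ p)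
    {ι : Type*} [Fintype ι] [Nonempty ι] (P : ι → Fin s → E) (e : ℕ → ℕ)
    (he : ∀ k, 1 ≤ k → k ≤ s → ∀ i, DmI (vi P) (pm (P i)) (e k) k)
    (hanti : ∀ k, 1 ≤ k → k + 1 ≤ s → e (k + 1) ≤ e k) (he1 : ∀ k, 1 ≤ k → k ≤ s → 1 ≤ e k) :
    ∏ k ∈ Finset.Icc 1 s, e k ≤ (4 * p) ^ (p * (p + 1) / 2) * Fintype.card ι := by
  classical
  have hcard : 0 < Fintype.card ι := Fintype.card_pos
  rcases Nat.eq_zero_or_pos s with h0 | h0
  · rw [h0, Finset.Icc_eq_empty (by omega), Finset.prod_empty]
    exact Nat.mul_pos (by positivity) hcard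
  have h1 := chain h0 e (fun t => rk (restrictTotalDegree (Fin s) E t) ((vi P).restrictScalars E))
    hanti he1 (fun a b hab => rk_mono (fun G hG => by
      rw [mem_restrictTotalDegree] at hG ⊢
      omega) _) (by
      have h2 := rk_base (J := vi P) (e := e s) fun G hG hG2 => by
        obtain ⟨i⟩ : Nonempty ι := inferInstance
        exact (he s h0 le_rfl i).eq_zero hG hG2
      exact (pow_le_choose s (e s)).trans (Nat.mul_le_mul_left _ h2)) (fun k hk1 hks hlt => by
      choose 𝔭 h2 h3 h4 h5 h6 using fun i => (he k hk1 (by omega) i).exact (pm_ind (P i))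
        (pm_prime (P i))
      exact grow_pts (vi P) 𝔭 hlt.le (fun i => ⟨h2 i, h5 i, h6 i⟩) fun G hG =>
        ⟨fun hG2 i => h3 i G hG hG2, fun hG2 => mem_vi.2 fun i => mem_pm.1 (h4 i (hG2 i))⟩)
  exact h1.trans (Nat.mul_le_mul (const_le hsp hp) (rk_le_card _))

/-- **Few generic points impose independent conditions.** -/
theorem main {V E : Type} [Field V] [Field E] [Algebra ℂ V] [Algebra ℂ E]
    [Algebra.EssFiniteType ℂ V] [Algebra.EssFiniteType ℂ E]
    {n m p c : ℕ} (hp : 1 ≤ p) (hn : Algebra.trdeg ℂ V = n)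
    {ω : (Fin n → Derivation ℂ V V) → V}
    (hω : IsPluri 1 ω) (hω0 : ∃ D, ω D ≠ 0) {x : Fin (p + 1) → V} {j0 : Fin (p + 1)}
    (hj0 : x j0 = 1)
    (hreg : ∀ (f : Fin m → Fin (p + 1)) (P : Place ℂ V), Divisorial n P →
      RegAt P (fun D => (∏ k, x (f k)) * ω D))
    (hx : IntermediateField.adjoin ℂ (Set.range x) = ⊤)
    {δ : ℕ → ℕ} (hδ : ∀ i j, i ≤ j → j < c → δ i ≤ δ j)
    (hsum : ∑ j ∈ Finset.range c, δ j ≤ m + p + 1)
    {f : Fin c → MvPolynomial (Fin (p + 1)) ℂ} (hf : ∀ i : Fin c, (f i).totalDegree ≤ δ i)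
    (hcomp : RingHom.ker (aeval x : MvPolynomial (Fin (p + 1)) ℂ →ₐ[ℂ] V) ∈
      (Ideal.span (insert (X j0 - 1) (Set.range f))).minimalPrimes)
    {ι : Type} [Fintype ι] [Nonempty ι] (σ : ι → (V →ₐ[ℂ] E)) (hσ : Function.Injective σ)
    (lam : ι → E) (hlam : ∀ i, lam i ≠ 0)
    (hrel : ∀ f : Fin m → Fin (p + 1), ∑ i, lam i * ∏ k, σ i (x (f k)) = 0) :
    ∏ j ∈ Finset.range c, δ j ≤
      (2 * p) ^ c * ((4 * p) ^ (p * (p + 1) / 2) * Fintype.card ι) := by
  classical
  have hcE : CharZero E := charZero_of_injective_algebraMap (algebraMap ℂ E).injective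
  obtain ⟨s, y, l, hs, hl1, hl2, hl3, hy⟩ := exists_frame (E := E)
    (fun j => (fun i => σ i (x j) : ι → E)) (j0 := j0) (by
      funext i
      rw [hj0, map_one]
      rfl)
  obtain ⟨P, hP⟩ : ∃ P : ι → Fin s → E, P = fun i k => y k i := ⟨_, rfl⟩
  have hev : ∀ (i : ι) (G : MvPolynomial (Fin s) E), aeval (P i) G = (aeval y G) i := by
    intro i G
    have h1 := comp_aeval_apply (φ := Pi.evalAlgHom E (fun _ : ι => E) i) y G
    rw [hP]
    exact h1.symm
  have hvi : ∀ G : MvPolynomial (Fin s) E, G ∈ vi P ↔ aeval y G = 0 := by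
    intro G
    rw [mem_vi]
    constructor
    · intro h
      funext i
      rw [← hev, h]
      rfl
    · intro h i
      rw [hev, h]
      rfl
  have hPl : ∀ i j, aeval (P i) (l j) = σ i (x j) := fun i j => by rw [hev, hl2]
  have hinj : Function.Injective P := by
    intro i i' h
    apply hσ
    have h1 : ∀ a ∈ IntermediateField.adjoin ℂ (Set.range x), σ i a = σ i' a := by
      intro a ha
      induction ha using IntermediateField.adjoin_induction with
      | mem a ha =>
        obtain ⟨j, rfl⟩ := ha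
        rw [← hPl, ← hPl, h]
      | algebraMap a => rw [AlgHom.commutes, AlgHom.commutes]
      | add a b _ _ ha hb => rw [map_add, map_add, ha, hb]
      | inv a _ ha => rw [map_inv₀, map_inv₀, ha]
      | mul a b _ _ ha hb => rw [map_mul, map_mul, ha, hb]
    ext a
    exact h1 a (by rw [hx]; trivial)
  choose e he he1 using fun i => exists_eI (P := P) (fun G hG hG2 => hy G hG ((hvi G).1 hG2)) i
  have hsp : s ≤ p := by omega
  have hanti : ∀ i k, 1 ≤ k → k + 1 ≤ s → e i (k + 1) ≤ e i k := by
    intro i k h1 h2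
    exact (he i k h1 (by omega) _).1 (((he i (k + 1) (by omega) h2 _).2 le_rfl).of_le (by omega))
  -- the equations
  have hfx : ∀ i, aeval x (f i) = 0 := fun i =>
    hcomp.1.2 (Ideal.subset_span (Set.mem_insert_of_mem _ ⟨i, rfl⟩))
  have hl0 : l j0 = 1 := by
    rw [← sub_eq_zero]
    refine hy _ ((totalDegree_sub _ _).trans (max_le (hl1 j0) ?_)) ?_
    · rw [totalDegree_one]
      exact Nat.zero_le _
    · rw [map_sub, hl2, map_one, sub_eq_zero]
      funext i
      rw [hj0, map_one]
      rfl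
  have hcompat : ∀ (i : ι) (F : MvPolynomial (Fin (p + 1)) ℂ),
      aeval (P i) (aeval l F) = σ i (aeval x F) := by
    intro i F
    induction F using MvPolynomial.induction_on with
    | C c =>
      rw [aeval_C, aeval_C, IsScalarTower.algebraMap_apply ℂ E (MvPolynomial (Fin s) E),
        algebraMap_eq, aeval_C, AlgHom.commutes]
      rfl
    | add p q hp hq => rw [map_add, map_add, map_add, map_add, hp, hq]
    | mul_X p j hp => rw [map_mul, map_mul, map_mul, map_mul, hp, aeval_X, hPl, aeval_X]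
  have hfvi : ∀ j, aeval l (f j) ∈ vi P := by
    intro j
    rw [mem_vi]
    intro i
    rw [hcompat, hfx, map_zero]
  have hrel2 : ∀ α : Fin s →₀ ℕ, α.degree ≤ m → ∑ i, lam i * ∏ j, P i j ^ α j = 0 := by
    intro α hα
    obtain ⟨g, hg⟩ := exists_prod (A := ι → E) (fun j => (fun i => σ i (x j) : ι → E))
      (j0 := j0) (by
        funext i
        rw [hj0, map_one]
        rfl) y (fun k => by
        obtain ⟨j, hj, -⟩ := hl3 k
        exact ⟨j, hj⟩) m α hα
    rw [← hrel g]
    refine Finset.sum_congr rfl fun i _ => ?_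
    congr 1
    have h1 := congrFun hg i
    rw [Finset.prod_apply, Finset.prod_apply] at h1
    rw [h1, hP]
    rfl
  have hstar : ∀ a : ι, ∀ i < c, ∀ k ≤ s, (∀ k', 1 ≤ k' → k' ≤ s → (δ i ≤ e a k' ↔ k' ≤ k)) →
      m < ∑ k' ∈ Finset.Ioc k s, e a k' + ∑ j ∈ Finset.Ico (i + 1) c, (δ j - 1) := by
    intro a i hi k hks hk
    have hk1 : DmI (vi P) (pm (P a)) (δ i) k := by
      rcases Nat.eq_zero_or_pos k with h0 | h0
      · rw [h0]
        exact dmI_zero (pm_prime _) (vi_le a) _
      · exact (he a k h0 hks _).2 ((hk k h0 hks).2 le_rfl)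
    have hk2 : ¬ DmI (vi P) (pm (P a)) (δ i) (k + 1) := by
      intro hD
      have h1 := hD.le
      have h2 := (hk (k + 1) (by omega) h1).1 ((he a (k + 1) (by omega) h1 _).1 hD)
      omega
    obtain ⟨κ, G, H, 𝔮, g1, g2, g3, g4, g5, g6, g7, g8, g9⟩ := sysI (pm_prime (P a)) (vi_le a)
      (he a) (f := fun j : Fin c => aeval l (f j)) hfvi
      (d := δ i) (i := i + 1) hi (fun j hj =>
        ((Pool.Agent.U598.IK.totalDegree_aeval_le l hl1 (f j)).trans (hf j)).trans
          (hδ j i (by omega) hi)) hk1 hk2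
    have hH : ∀ b : Fin (k - κ), (H b).totalDegree ≤ δ (c - (k - κ) + b) - 1 + 1 := by
      intro b
      have hb := b.2
      have h1 : (H b).totalDegree ≤ δ (c - (k - κ) + b) := by
        rw [← mem_restrictTotalDegree]
        have h2 : Submodule.span E ((fun j : Fin c => aeval l (f j)) ''
            {j | (j : ℕ) ≤ c - (k - κ) + b}) ≤
            restrictTotalDegree (Fin s) E (δ (c - (k - κ) + b)) := by
          rw [Submodule.span_le]
          rintro _ ⟨j, hj, rfl⟩
          rw [SetLike.mem_coe, mem_restrictTotalDegree]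
          exact ((Pool.Agent.U598.IK.totalDegree_aeval_le l hl1 (f j)).trans (hf j)).trans
            (hδ j _ hj (by omega))
        exact h2 (g7 b)
      omega
    have hHv : ∀ b, H b ∈ vi P := by
      intro b
      have h2 : Submodule.span E ((fun j : Fin c => aeval l (f j)) ''
          {j | (j : ℕ) ≤ c - (k - κ) + b}) ≤ (vi P).restrictScalars E := by
        rw [Submodule.span_le]
        rintro _ ⟨j, hj, rfl⟩
        exact hfvi j
      exact h2 (g7 b)
    have hdeg : ∀ i : Fin (s - k) ⊕ Fin (k - κ), ((Sum.elim G H) i).totalDegree ≤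
        (Sum.elim (fun a' => e a (s - a')) (fun b => δ (c - (k - κ) + b) - 1) :
          Fin (s - k) ⊕ Fin (k - κ) → ℕ) i + 1 := by
      rintro (a' | b)
      · exact (g6 a').1
      · exact hH b
    have hcard : Fintype.card (Fin (s - k) ⊕ Fin (k - κ)) + κ = s := by
      rw [Fintype.card_sum, Fintype.card_fin, Fintype.card_fin]
      omega
    have hqmin : 𝔮 ∈ (Ideal.span (Set.range (Sum.elim G H))).minimalPrimes := by
      rw [Set.Sum.elim_range]
      exact g8
    have h1 : m < ∑ i : Fin (s - k) ⊕ Fin (k - κ),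
        (Sum.elim (fun a' => e a (s - a')) (fun b => δ (c - (k - κ) + b) - 1) :
          Fin (s - k) ⊕ Fin (k - κ) → ℕ) i := by
      rcases κ with _ | κ
      · have hqy : 𝔮 = pm (P a) := by
          by_contra hne
          exact g4 ((Pool.Agent.U598.IK.ind_zero (pm_prime (P a)).ne_top).lt hqmin.isPrime
            (lt_of_le_of_ne g5 hne))
        refine isoP' (by simpa using hcard) _ P hinj (Sum.elim G H) hdeg (fun i b => ?_) a
          (hqy ▸ hqmin) lam (hlam a) hrel2
        rcases b with b | b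
        · exact mem_vi.1 (g6 b).2 i
        · exact mem_vi.1 (hHv b) i
      · let _ : Algebra V E := (σ a).toRingHom.toAlgebra
        have : IsScalarTower ℂ V E := IsScalarTower.of_algebraMap_eq fun c =>
          ((σ a).commutes c).symm
        exact geoP (V := V) (E := E) (K := E) (y := P a) hn hω hω0 hj0 hreg hx hcomp hl0
          (fun j => hPl a j) (fun k => by
            obtain ⟨j, hj, hj2⟩ := hl3 k
            refine ⟨j, ?_, hj2⟩
            rw [hP]
            exact congrFun hj a) _ (Sum.elim G H) hdeg hcard hqmin g5 g3 g4 g9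
    rw [Fintype.sum_sum_type] at h1
    simp only [Sum.elim_inl, Sum.elim_inr] at h1
    have h2 : ∑ a' : Fin (s - k), e a (s - a') = ∑ k' ∈ Finset.Ioc k s, e a k' := by
      rw [Fin.sum_univ_eq_sum_range (fun a' => e a (s - a')) (s - k)]
      refine Finset.sum_nbij' (fun a => s - a) (fun a => s - a) ?_ ?_ ?_ ?_ ?_
      · intro a ha
        rw [Finset.mem_range] at ha
        rw [Finset.mem_Ioc]
        omega
      · intro a ha
        rw [Finset.mem_Ioc] at ha
        rw [Finset.mem_range]
        omega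
      · intro a ha
        rw [Finset.mem_range] at ha
        omega
      · intro a ha
        rw [Finset.mem_Ioc] at ha
        omega
      · intro a _
        rfl
    have h3 : ∑ b : Fin (k - κ), (δ (c - (k - κ) + b) - 1) ≤
        ∑ j ∈ Finset.Ico (i + 1) c, (δ j - 1) := by
      rw [Fin.sum_univ_eq_sum_range (fun b => δ (c - (k - κ) + b) - 1) (k - κ)]
      have h4 : ∑ b ∈ Finset.range (k - κ), (δ (c - (k - κ) + b) - 1) =
          ∑ j ∈ Finset.Ico (c - (k - κ)) c, (δ j - 1) := by
        rw [Finset.sum_Ico_eq_sum_range, show c - (c - (k - κ)) = k - κ by omega]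
      rw [h4]
      refine Finset.sum_le_sum_of_subset (Finset.Ico_subset_Ico_left ?_)
      omega
    omega
  -- the smallest degrees
  obtain ⟨a0⟩ : Nonempty ι := inferInstance
  have hne : (Finset.univ : Finset ι).Nonempty := ⟨a0, Finset.mem_univ _⟩
  obtain ⟨e0, he0⟩ : ∃ e0 : ℕ → ℕ, e0 = fun k => Finset.univ.inf' hne fun a => e a k := ⟨_, rfl⟩
  have hle : ∀ a k, e0 k ≤ e a k := fun a k => by
    rw [he0]
    exact Finset.inf'_le _ (Finset.mem_univ a)
  have hex : ∀ k, ∃ a, e0 k = e a k := fun k => by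
    obtain ⟨a, -, ha⟩ := Finset.exists_mem_eq_inf' hne fun a => e a k
    exact ⟨a, by rw [he0]; exact ha⟩
  have hanti0 : ∀ k, 1 ≤ k → k + 1 ≤ s → e0 (k + 1) ≤ e0 k := by
    intro k h1 h2
    obtain ⟨a, ha⟩ := hex k
    rw [ha]
    exact (hle a (k + 1)).trans (hanti a k h1 h2)
  have he10 : ∀ k, 1 ≤ k → k ≤ s → 1 ≤ e0 k := by
    intro k h1 h2
    obtain ⟨a, ha⟩ := hex k
    rw [ha]
    exact he1 a k h1 h2
  have hprod := prod_idx hp e0 δ he10 (fun i hi hi2 => by
    have h1 := fun a => comb hp hsp (e a) δ (hanti a) hδ hsum (hstar a) hi hi2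
    obtain ⟨a, ha⟩ := hex (c - i)
    refine ⟨(h1 a0).1, ?_⟩
    rw [ha]
    exact (h1 a).2)
  refine hprod.trans (Nat.mul_le_mul_left _ ?_)
  exact prod_le_card hp hsp P e0 (fun k h1 h2 a => ((he a k h1 h2 _).2 le_rfl).anti (hle a k))
    hanti0 he10

end Pool.Agent.U598.PS
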