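import Pool.Agent.U598.PS.Union
import Pool.Agent.U598.MD.Sys

/-!
The dimension at a point of the zero set of the polynomials of bounded degree which vanish at
finitely many points.
-/

set_option autoImplicit false
set_option linter.unusedSectionVars false

open MvPolynomial Pool.Agent.U598.MD
open Pool.Agent.U598.IK (Ind ind_zero)

namespace Pool.Agent.U598.PS

section

variable {E : Type} [Field E] {s : ℕ}

/-- the zero set of the polynomials of degree at most `d` in `J` has dimension at least `k` at the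
point with the maximal ideal `𝔪` -/
def DmI (J 𝔪 : Ideal (MvPolynomial (Fin s) E)) (d k : ℕ) : Prop :=
  ∃ 𝔭 : Ideal (MvPolynomial (Fin s) E), 𝔭.IsPrime ∧
    (∀ G : MvPolynomial (Fin s) E, G.totalDegree ≤ d → G ∈ J → G ∈ 𝔭) ∧ 𝔭 ≤ 𝔪 ∧ Ind 𝔭 k

variable {J 𝔪 : Ideal (MvPolynomial (Fin s) E)}

theorem DmI.anti {d d' k : ℕ} (h : d' ≤ d) (hd : DmI J 𝔪 d k) : DmI J 𝔪 d' k := by
  obtain ⟨𝔭, h1, h2, h3, h4⟩ := hd
  exact ⟨𝔭, h1, fun G hG hJ => h2 G (hG.trans h) hJ, h3, h4⟩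

theorem DmI.of_le {d k k' : ℕ} (h : k' ≤ k) (hd : DmI J 𝔪 d k) : DmI J 𝔪 d k' := by
  obtain ⟨𝔭, h1, h2, h3, h4⟩ := hd
  exact ⟨𝔭, h1, h2, h3, h4.of_le h⟩

theorem DmI.le {d k : ℕ} (hd : DmI J 𝔪 d k) : k ≤ s := by
  obtain ⟨𝔭, h1, h2, h3, h4⟩ := hd
  exact h4.le h1

theorem dmI_zero (h : 𝔪.IsPrime) (hJ : J ≤ 𝔪) (d : ℕ) : DmI J 𝔪 d 0 :=
  ⟨𝔪, h, fun _ _ hG => hJ hG, le_rfl, ind_zero h.ne_top⟩

theorem dmI_top {d : ℕ} (h : ∀ G : MvPolynomial (Fin s) E, G.totalDegree ≤ d → G ∈ J → G = 0) :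
    DmI J 𝔪 d s := by
  refine ⟨⊥, Ideal.isPrime_bot, fun G hG hJ => ?_, bot_le, ⟨X, fun P hP hmem => hP ?_⟩⟩
  · rw [Ideal.mem_bot]
    exact h G hG hJ
  · rwa [aeval_X_left_apply] at hmem

theorem DmI.eq_zero {d : ℕ} (h : DmI J 𝔪 d s) {G : MvPolynomial (Fin s) E}
    (hG : G.totalDegree ≤ d) (hG0 : G ∈ J) : G = 0 := by
  obtain ⟨𝔭, h1, h2, h3, h4⟩ := h
  have h5 : 𝔭 = ⊥ := by
    by_contra h6
    have h7 := h4.lt Ideal.isPrime_bot (bot_lt_iff_ne_bot.2 h6)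
    have h8 := h7.le Ideal.isPrime_bot
    omega
  have h6 := h2 G hG hG0
  rwa [h5, Ideal.mem_bot] at h6

/-- a component of the exact dimension `k` -/
theorem DmI.exact [Infinite E] (h𝔪 : ¬ Ind 𝔪 1) (hm : 𝔪.IsPrime) {d k : ℕ} (h : DmI J 𝔪 d k) :
    ∃ 𝔭 : Ideal (MvPolynomial (Fin s) E), 𝔭.IsPrime ∧
    (∀ G : MvPolynomial (Fin s) E, G.totalDegree ≤ d → G ∈ J → G ∈ 𝔭) ∧ 𝔭 ≤ 𝔪 ∧ Ind 𝔭 k ∧
      ¬ Ind 𝔭 (k + 1) := by
  obtain ⟨𝔭, h1, hmax⟩ := WellFounded.has_min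
    (wellFounded_gt : WellFounded ((· > ·) : Ideal (MvPolynomial (Fin s) E) → _ → Prop))
    {𝔭 | 𝔭.IsPrime ∧ (∀ G : MvPolynomial (Fin s) E, G.totalDegree ≤ d → G ∈ J → G ∈ 𝔭) ∧ 𝔭 ≤ 𝔪 ∧
      Ind 𝔭 k} h
  obtain ⟨h1, h2, h3, h4⟩ := h1
  refine ⟨𝔭, h1, h2, h3, h4, fun hI => ?_⟩
  have hne : 𝔭 ≠ 𝔪 := by
    rintro rfl
    exact h𝔪 (hI.of_le (by omega))
  obtain ⟨g, hg, hg2⟩ : ∃ g ∈ 𝔪, g ∉ 𝔭 := by
    by_contra hcon
    push Not at hcon
    exact hne (le_antisymm h3 hcon)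
  obtain ⟨𝔮, hq, hq2⟩ := Ideal.exists_minimalPrimes_le (I := 𝔭 ⊔ Ideal.span {g}) (J := 𝔪)
    (sup_le h3 (by rwa [Ideal.span_singleton_le_iff_mem]))
  have hle : 𝔭 ≤ 𝔮 := le_sup_left.trans hq.1.2
  have hgq : g ∈ 𝔮 := hq.1.2 ((le_sup_right : _ ≤ 𝔭 ⊔ _) (Ideal.mem_span_singleton_self g))
  refine hmax 𝔮 ⟨hq.isPrime, fun G hG hJ => hle (h2 G hG hJ), hq2, krull1 h1 hI hq⟩ ?_
  refine lt_of_le_of_ne hle ?_
  rintro rfl
  exact hg2 hgq

/-- the maximal ideal of a point -/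
noncomputable def pm (y : Fin s → E) : Ideal (MvPolynomial (Fin s) E) :=
  RingHom.ker (aeval y : MvPolynomial (Fin s) E →ₐ[E] E)

theorem mem_pm {y : Fin s → E} {G : MvPolynomial (Fin s) E} : G ∈ pm y ↔ aeval y G = 0 := by
  rw [pm, RingHom.mem_ker]

theorem pm_prime (y : Fin s → E) : (pm y).IsPrime := RingHom.ker_isPrime _

theorem pm_ind (y : Fin s → E) : ¬ Ind (pm y) 1 := by
  intro h
  obtain ⟨T, -, hT⟩ := h.coords (pm_prime y)
  refine hT (X 0 - C (y (T 0))) (fun h0 => ?_) ?_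
  · have h1 := congrArg totalDegree (sub_eq_zero.1 h0)
    rw [totalDegree_X, totalDegree_C] at h1
    omega
  · rw [mem_pm, map_sub, aeval_X, aeval_C, map_sub, aeval_X, MvPolynomial.algebraMap_eq, aeval_C]
    exact sub_self _

/-- the ideal of finitely many points -/
noncomputable def vi {ι : Type*} (P : ι → Fin s → E) : Ideal (MvPolynomial (Fin s) E) := ⨅ j, pm (P j)

variable {ι : Type*} {P : ι → Fin s → E}

theorem mem_vi {G : MvPolynomial (Fin s) E} : G ∈ vi P ↔ ∀ j, aeval (P j) G = 0 := by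
  rw [vi, Ideal.mem_iInf]
  exact forall_congr' fun j => mem_pm

theorem vi_le (j : ι) : vi P ≤ pm (P j) := iInf_le _ j

variable [Fintype ι]

theorem not_dmI (j : ι) : ¬ DmI (vi P) (pm (P j)) (Fintype.card ι) 1 := by
  classical
  rintro ⟨𝔭, h1, h2, h3, h4⟩
  obtain ⟨T, -, hT⟩ := h4.coords h1
  obtain ⟨Q, hQ⟩ : ∃ Q : MvPolynomial (Fin 1) E, Q = ∏ i, (X 0 - C (P i (T 0))) := ⟨_, rfl⟩
  have hQ2 : aeval (fun i => (X (T i) : MvPolynomial (Fin s) E)) Q =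
      ∏ i, (X (T 0) - C (P i (T 0))) := by
    rw [hQ, map_prod]
    refine Finset.prod_congr rfl fun i _ => ?_
    rw [map_sub, aeval_X, aeval_C, MvPolynomial.algebraMap_eq]
  refine hT Q ?_ ?_
  · rw [hQ, Finset.prod_ne_zero_iff]
    intro i _ h0
    have h5 := congrArg totalDegree (sub_eq_zero.1 h0)
    rw [totalDegree_X, totalDegree_C] at h5
    omega
  · rw [hQ2]
    refine h2 _ ?_ ?_
    · refine (totalDegree_finsetProd _ _).trans ?_
      refine (Finset.sum_le_card_nsmul Finset.univ _ 1 fun i _ => ?_).trans ?_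
      · refine (totalDegree_sub _ _).trans (max_le ?_ ?_)
        · rw [totalDegree_X]
        · rw [totalDegree_C]
          omega
      · rw [Finset.card_univ, smul_eq_mul, mul_one]
    · rw [mem_vi]
      intro i
      rw [map_prod]
      refine Finset.prod_eq_zero (Finset.mem_univ i) ?_
      rw [map_sub, aeval_X, aeval_C]
      exact sub_self _

theorem rk_le_card (t : ℕ) :
    rk (restrictTotalDegree (Fin s) E t) ((vi P).restrictScalars E) ≤ Fintype.card ι := by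
  let Φ : MvPolynomial (Fin s) E →ₗ[E] (ι → E) :=
    LinearMap.pi fun j => (aeval (P j) : MvPolynomial (Fin s) E →ₐ[E] E).toLinearMap
  have h1 : (vi P).restrictScalars E = LinearMap.ker Φ := by
    ext G
    rw [LinearMap.mem_ker]
    change G ∈ vi P ↔ _
    rw [mem_vi]
    constructor
    · intro h
      funext j
      exact h j
    · intro h j
      exact congrFun h j
  rw [h1, rk_eq_map]
  refine (Submodule.finrank_le _).trans ?_
  rw [Module.finrank_fintype_fun_eq_card]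

theorem rk_base {e : ℕ} (h : ∀ G : MvPolynomial (Fin s) E, G.totalDegree ≤ e → G ∈ J → G = 0) :
    (s + e).choose e ≤ rk (restrictTotalDegree (Fin s) E e) (J.restrictScalars E) := by
  have h0 : restrictTotalDegree (Fin s) E e ⊓ J.restrictScalars E = ⊥ := by
    rw [eq_bot_iff]
    rintro G ⟨h1, h2⟩
    rw [SetLike.mem_coe, mem_restrictTotalDegree] at h1
    exact h G h1 h2
  rw [rk, h0, finrank_bot, Nat.sub_zero]
  let F := FractionRing (MvPolynomial (Fin s) E)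
  let φ : MvPolynomial (Fin s) E →ₐ[E] F := IsScalarTower.toAlgHom E _ F
  have hφ : Function.Injective φ := IsFractionRing.injective (MvPolynomial (Fin s) E) F
  have h1 := card_prod (E := E) (F := F) (D := s) (e := e) (ρ := 1)
    ((restrictTotalDegree (Fin s) E e).map φ.toLinearMap) (fun j => φ (X j)) (fun _ => 1)
    (fun Q hQ i => by
      rw [Fin.sum_univ_one, mul_one] at hQ
      have h2 : aeval (fun j => φ (X j)) (Q 0) = φ (Q 0) := by
        have h3 := comp_aeval_apply (φ := φ) (fun j : Fin s => (X j : MvPolynomial (Fin s) E)) (Q 0)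
        rw [← h3, aeval_X_left_apply]
      rw [h2] at hQ
      rw [Subsingleton.elim i 0]
      exact hφ (by rw [hQ, map_zero]))
    (fun α hα i => by
      refine ⟨∏ j, X j ^ α j, ?_, ?_⟩
      · rw [SetLike.mem_coe, mem_restrictTotalDegree]
        refine (totalDegree_finsetProd _ _).trans ?_
        refine le_trans ?_ hα
        rw [Finsupp.degree_eq_sum]
        exact Finset.sum_le_sum fun j _ => by
          rw [totalDegree_X_pow]
      · change φ (∏ j, X j ^ α j) = (∏ j, φ (X j) ^ α j) * 1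
        rw [map_prod, mul_one]
        simp only [map_pow])
  rw [mul_one] at h1
  exact h1.trans (Submodule.finrank_map_le _ _)

/-- the degrees at which the dimension drops -/
theorem exists_eI (hy : ∀ G : MvPolynomial (Fin s) E, G.totalDegree ≤ 1 → G ∈ vi P → G = 0)
    (j : ι) : ∃ e : ℕ → ℕ, (∀ k, 1 ≤ k → k ≤ s → ∀ d, DmI (vi P) (pm (P j)) d k ↔ d ≤ e k) ∧
      ∀ k, 1 ≤ k → k ≤ s → 1 ≤ e k := by
  classical
  have hr1 : 1 ≤ Fintype.card ι := Fintype.card_pos_iff.2 ⟨j⟩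
  have h1 : ∀ k, 1 ≤ k → k ≤ s → ∃ e, 1 ≤ e ∧ ∀ d, DmI (vi P) (pm (P j)) d k ↔ d ≤ e := by
    intro k hk hks
    have hP1 : DmI (vi P) (pm (P j)) 1 k := (dmI_top hy).of_le hks
    have hr : ¬ DmI (vi P) (pm (P j)) (Fintype.card ι) k := fun h => not_dmI j (h.of_le hk)
    refine ⟨Nat.findGreatest (fun d => DmI (vi P) (pm (P j)) d k) (Fintype.card ι),
      Nat.le_findGreatest hr1 hP1, fun d => ⟨fun h => Nat.le_findGreatest ?_ h, fun h => ?_⟩⟩
    · by_contra hcon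
      push Not at hcon
      exact hr (h.anti hcon.le)
    · exact (Nat.findGreatest_spec (P := fun d => DmI (vi P) (pm (P j)) d k) hr1 hP1).anti h
  choose e he using h1
  refine ⟨fun k => if h : 1 ≤ k ∧ k ≤ s then e k h.1 h.2 else 0, fun k h1 h2 d => ?_,
    fun k h1 h2 => ?_⟩
  · dsimp only
    rw [dif_pos ⟨h1, h2⟩]
    exact (he k h1 h2).2 d
  · dsimp only
    rw [dif_pos ⟨h1, h2⟩]
    exact (he k h1 h2).1

end

section

variable {E : Type} [Field E] [Infinite E] {s : ℕ} {J 𝔪 : Ideal (MvPolynomial (Fin s) E)}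

/-- **The system of equations of a component.** -/
theorem sysI (hm : 𝔪.IsPrime) (hJ : J ≤ 𝔪) {e : ℕ → ℕ}
    (he : ∀ k, 1 ≤ k → k ≤ s → ∀ d, DmI J 𝔪 d k ↔ d ≤ e k) {c : ℕ}
    {f : Fin c → MvPolynomial (Fin s) E} (hf0 : ∀ j, f j ∈ J) {d i : ℕ} (hi : i ≤ c)
    (hfi : ∀ j : Fin c, (j : ℕ) < i → (f j).totalDegree ≤ d) {k : ℕ} (hk : DmI J 𝔪 d k)
    (hk' : ¬ DmI J 𝔪 d (k + 1)) :
    ∃ (κ : ℕ) (G : Fin (s - k) → MvPolynomial (Fin s) E) (H : Fin (k - κ) → MvPolynomial (Fin s) E)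
      (𝔮 : Ideal (MvPolynomial (Fin s) E)), k ≤ κ + (c - i) ∧ κ ≤ k ∧ Ind 𝔮 κ ∧ ¬ Ind 𝔮 (κ + 1) ∧
      𝔮 ≤ 𝔪 ∧
      (∀ l : Fin (s - k), (G l).totalDegree ≤ e (s - l) + 1 ∧ G l ∈ J) ∧
      (∀ l : Fin (k - κ), H l ∈ Submodule.span E (f '' {j | (j : ℕ) ≤ c - (k - κ) + l})) ∧
      𝔮 ∈ (Ideal.span (Set.range G ∪ Set.range H)).minimalPrimes ∧ ∀ j, f j ∈ 𝔮 := by
  classical
  have hks : k ≤ s := hk.le
  obtain ⟨𝔭, hp, hp2, hp3, hp4⟩ := hk
  obtain ⟨W, hW⟩ : ∃ W : ℕ → Submodule E (MvPolynomial (Fin s) E),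
    W = fun l => restrictTotalDegree (Fin s) E (e (s - l) + 1) ⊓ J.restrictScalars E := ⟨_, rfl⟩
  have hmemW : ∀ l G, G ∈ W l ↔ G.totalDegree ≤ e (s - l) + 1 ∧ G ∈ J := by
    intro l G
    rw [hW]
    change G ∈ restrictTotalDegree (Fin s) E (e (s - l) + 1) ⊓ J.restrictScalars E ↔ _
    rw [Submodule.mem_inf, mem_restrictTotalDegree, Submodule.restrictScalars_mem]
  obtain ⟨G, hG, hG2⟩ := sys1 W
    (𝔪 := 𝔪) (k := k) (fun l hl 𝔯 h1 h2 h3 hI => by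
      have h4 := (he (s - l) (by omega) (by omega) (e (s - l) + 1)).1
        ⟨𝔯, h1, fun G hG hJ => h2 G ((hmemW l G).2 ⟨hG, hJ⟩), h3, hI⟩
      omega) hks
  have hGW : ∀ l : Fin (s - k), (G l).totalDegree ≤ e (s - l) + 1 ∧ G l ∈ J := fun l =>
    (hmemW l _).1 (hG l)
  have hGp : ∀ l, G l ∈ 𝔭 := by
    intro l
    have h1 := l.2
    have h2 : e (s - l) < d := by
      by_contra hcon
      exact hk' (((he (s - l) (by omega) (by omega) d).2 (by omega)).of_le (by omega))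
    have h3 := hGW l
    exact hp2 _ (by omega) h3.2
  have hfp : ∀ j : Fin c, (j : ℕ) < i → f j ∈ 𝔭 := fun j hj =>
    hp2 _ (hfi j hj) (hf0 j)
  obtain ⟨g, hg⟩ : ∃ g : Fin (c - i) → MvPolynomial (Fin s) E,
    g = fun l : Fin (c - i) => f ⟨i + l, by have := l.2; omega⟩ := ⟨_, rfl⟩
  have hle : 𝔭 ⊔ Ideal.span (Set.range g) ≤ 𝔪 := by
    refine sup_le hp3 ?_
    rw [Ideal.span_le, hg]
    rintro _ ⟨l, rfl⟩
    exact hJ (hf0 _)
  obtain ⟨𝔮1, hq1, hq1m⟩ := Ideal.exists_minimalPrimes_le hle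
  have hq1p : 𝔮1.IsPrime := hq1.isPrime
  have hI1 : Ind 𝔮1 (k - (c - i)) := by
    by_cases h : c - i ≤ k
    · refine krull _ hp (D := k - (c - i)) ?_ g hq1
      rwa [Nat.sub_add_cancel h]
    · rw [show k - (c - i) = 0 by omega]
      exact ind_zero hq1p.ne_top
  have hle2 : Ideal.span (Set.range G) ⊔ Ideal.span (Set.range f) ≤ 𝔮1 := by
    refine sup_le ?_ ?_
    · rw [Ideal.span_le]
      rintro _ ⟨l, rfl⟩
      exact hq1.1.2 (le_sup_left (a := 𝔭) (hGp l))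
    · rw [Ideal.span_le]
      rintro _ ⟨j, rfl⟩
      by_cases hj : (j : ℕ) < i
      · exact hq1.1.2 (le_sup_left (a := 𝔭) (hfp j hj))
      · refine hq1.1.2 ((le_sup_right : _ ≤ 𝔭 ⊔ _) (Ideal.subset_span
          ⟨⟨(j : ℕ) - i, by have := j.2; omega⟩, ?_⟩))
        rw [hg]
        dsimp only
        congr 1
        apply Fin.ext
        dsimp only
        omega
  obtain ⟨𝔮, hq, hqle⟩ := Ideal.exists_minimalPrimes_le hle2
  have hqp : 𝔮.IsPrime := hq.isPrime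
  have hqm := hqle.trans hq1m
  obtain ⟨κ, hκ, hκ'⟩ : ∃ κ, Ind 𝔮 κ ∧ ¬ Ind 𝔮 (κ + 1) := by
    by_contra hcon
    push Not at hcon
    have key : ∀ D, Ind 𝔮 D := by
      intro D
      induction D with
      | zero => exact ind_zero hqp.ne_top
      | succ D ih => exact hcon D ih
    have := (key (s + 1)).le hqp
    omega
  have h1 : k ≤ κ + (c - i) := by
    by_contra hcon
    exact hκ' ((hI1.mono hqle).of_le (by omega))
  have hkq : ∀ 𝔯 : Ideal (MvPolynomial (Fin s) E), 𝔯.IsPrime → Ideal.span (Set.range G) ≤ 𝔯 →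
      𝔯 ≤ 𝔮 → ¬ Ind 𝔯 (k + 1) := fun 𝔯 h1 h2 h3 => hG2 𝔯 h1 h2 (h3.trans hqm)
  have h2 : κ ≤ k := by
    by_contra hcon
    exact hkq 𝔮 hqp (le_sup_left.trans hq.1.2) le_rfl (hκ.of_le (by omega))
  obtain ⟨H, hH, hH2⟩ := sys2 _ f hq hkq hκ hκ' h2 (by omega)
  refine ⟨κ, G, H, 𝔮, h1, h2, hκ, hκ', hqm, hGW, hH, ?_, fun j =>
    hq.1.2 ((le_sup_right : _ ≤ Ideal.span (Set.range G) ⊔ _) (Ideal.subset_span ⟨j, rfl⟩))⟩
  rwa [Ideal.span_union]

end

end Pool.Agent.U598.PS
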