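import Pool.Agent.U598.PS.Inx
import Pool.Agent.N145.SX.Stm
import Pool.Agent.Y172.Cov3

/-!
The canonical forms of a variety whose generic points impose independent conditions on the forms of
degree `m` separate points.
-/

set_option autoImplicit false
set_option linter.unusedSectionVars false

open FF MvPolynomial Pool.Agent.W602.GT
open Pool.Agent.Y184.NT (trForm trForm_pluri)
open Pool.Agent.Y172 (exists_crd pluri_coord)
open Pool.Agent.N145.SX (HX SepX)

namespace Pool.Agent.U598.PS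

theorem sepX {V : Type} [Field V] [Algebra ℂ V] [Algebra.EssFiniteType ℂ V] {n m p c d : ℕ}
    (hp : 1 ≤ p) (hn : Algebra.trdeg ℂ V = n) {ω : (Fin n → Derivation ℂ V V) → V}
    (hω : IsPluri 1 ω) (hω0 : ∃ D, ω D ≠ 0) {x : Fin (p + 1) → V} {j0 : Fin (p + 1)}
    (hj0 : x j0 = 1)
    (hreg : ∀ (f : Fin m → Fin (p + 1)) (P : Place ℂ V), Divisorial n P →
      RegAt P (fun D => (∏ k, x (f k)) * ω D))
    (hx : IntermediateField.adjoin ℂ (Set.range x) = ⊤)
    {δ : Fin c → ℕ} (hsum : ∑ j, δ j ≤ m + p + 1)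
    {f : Fin c → MvPolynomial (Fin (p + 1)) ℂ} (hf : ∀ i : Fin c, (f i).totalDegree ≤ δ i)
    (hcomp : RingHom.ker (aeval x : MvPolynomial (Fin (p + 1)) ℂ →ₐ[ℂ] V) ∈
      (Ideal.span (insert (X j0 - 1) (Set.range f))).minimalPrimes)
    (hd : (2 * p) ^ c * ((4 * p) ^ (p * (p + 1) / 2) * d) < ∏ j, δ j) :
    ∃ z : Fin n → V, IsTranscendenceBasis ℂ z ∧ SepX z (fun _ => False) (d + 1) := by
  classical
  obtain ⟨z, E, hz, hE⟩ := exists_crd hn
  have hωE : ω E ≠ 0 := by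
    intro h0
    obtain ⟨D, hD⟩ := hω0
    rw [pluri_coord hz hE hω D, h0, mul_zero] at hD
    exact hD rfl
  refine ⟨z, hz, fun Ω _ _ _ A hA lam hlam => ?_⟩
  by_contra hcon
  push Not at hcon
  obtain ⟨σ₀, hσ₀, hσ₁⟩ := hcon
  have hmem : ∀ g : Fin m → Fin (p + 1), (∏ k, x (g k)) * ω E ∈ HX z (fun _ => False) := by
    intro g P hP
    have h1 : trForm z ((∏ k, x (g k)) * ω E) = fun D => (∏ k, x (g k)) * ω D := by
      funext D
      rw [pluri_coord hz hE hω D, pow_one, trForm]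
      ring
    rw [h1]
    exact ⟨fun D' hD' => hreg g P hP D' fun i => Pool.Agent.TH466.QG.derReg_of_log (hD' i),
      fun _ => hreg g P hP⟩
  refine inx hp hn hω hω0 hj0 hreg hx hsum hf hcomp (A.filter fun σ => lam σ ≠ 0)
    ⟨σ₀, Finset.mem_filter.2 ⟨hσ₀, hσ₁⟩⟩ (fun σ => lam σ * σ (ω E)) (fun σ hσ =>
      mul_ne_zero (Finset.mem_filter.1 hσ).2 ((map_ne_zero σ).2 hωE)) (lt_of_le_of_lt ?_ hd)
    fun g => ?_
  · refine Nat.mul_le_mul_left _ (Nat.mul_le_mul_left _ ?_)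
    exact (Finset.card_filter_le _ _).trans (Nat.lt_succ_iff.1 hA)
  · rw [Finset.sum_filter]
    refine Eq.trans (Finset.sum_congr rfl fun σ _ => ?_) (hlam _ (hmem g))
    split_ifs with h4
    · rw [map_mul, map_prod]
      ring
    · push Not at h4
      rw [h4, zero_mul]

end Pool.Agent.U598.PS
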