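import Pool.Agent.U598.PS.Grow

/-!
The growth of the functions of bounded degree on a union of affine varieties of the same dimension.
-/

set_option autoImplicit false
set_option linter.unusedSectionVars false

open MvPolynomial Pool.Agent.U598.MD
open Pool.Agent.U598.IK (Ind)

namespace Pool.Agent.U598.PS

section

variable {E A : Type*} [Field E] [AddCommGroup A] [Module E A]

/-- the dimension of the image of `U` modulo `I` -/
noncomputable def rk (U I : Submodule E A) : ℕ :=
  Module.finrank E U - Module.finrank E (U ⊓ I : Submodule E A)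

theorem rk_eq_map {M : Type*} [AddCommGroup M] [Module E M] (U : Submodule E A)
    [Module.Finite E U] (φ : A →ₗ[E] M) : rk U (LinearMap.ker φ) = Module.finrank E (U.map φ) := by
  have h1 := (φ.domRestrict U).finrank_range_add_finrank_ker
  rw [LinearMap.range_domRestrict] at h1
  have h2 : LinearMap.ker (φ.domRestrict U) = (LinearMap.ker φ).comap U.subtype := by
    ext x
    rfl
  have h3 : Module.finrank E (LinearMap.ker (φ.domRestrict U)) =
      Module.finrank E (U ⊓ LinearMap.ker φ : Submodule E A) := by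
    rw [h2, ← Submodule.map_comap_subtype, Submodule.finrank_map_subtype_eq]
  rw [rk]
  omega

theorem rk_inf (U I I' : Submodule E A) [Module.Finite E U] :
    rk U (I ⊓ I') = rk U I + rk (U ⊓ I) I' := by
  have h1 : Module.finrank E (U ⊓ I : Submodule E A) ≤ Module.finrank E U :=
    Submodule.finrank_mono inf_le_left
  have h0 : Module.Finite E (U ⊓ I : Submodule E A) :=
    Submodule.finiteDimensional_of_le (S₂ := U) inf_le_left
  have h2 : Module.finrank E (U ⊓ I ⊓ I' : Submodule E A) ≤
      Module.finrank E (U ⊓ I : Submodule E A) := Submodule.finrank_mono inf_le_left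
  rw [rk, rk, rk, ← inf_assoc]
  omega

theorem rk_mono {U U' : Submodule E A} (h : U ≤ U') [Module.Finite E U'] (I : Submodule E A) :
    rk U I ≤ rk U' I := by
  have hU : Module.Finite E U := Submodule.finiteDimensional_of_le h
  have h0 : Module.Finite E (U' ⊓ I : Submodule E A) :=
    Submodule.finiteDimensional_of_le (S₂ := U') inf_le_left
  have h1 := Submodule.finrank_sup_add_finrank_inf_eq U (U' ⊓ I)
  have h2 : U ⊓ (U' ⊓ I) = U ⊓ I := by
    rw [← inf_assoc, inf_eq_left.2 h]
  rw [h2] at h1
  have h3 : Module.finrank E (U ⊔ (U' ⊓ I) : Submodule E A) ≤ Module.finrank E U' :=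
    Submodule.finrank_mono (sup_le h inf_le_left)
  have h4 : Module.finrank E (U ⊓ I : Submodule E A) ≤ Module.finrank E U :=
    Submodule.finrank_mono inf_le_left
  have h5 : Module.finrank E (U' ⊓ I : Submodule E A) ≤ Module.finrank E U' :=
    Submodule.finrank_mono inf_le_left
  rw [rk, rk]
  omega

theorem rk_top (U : Submodule E A) : rk U ⊤ = 0 := by
  rw [rk, inf_top_eq, Nat.sub_self]

end

instance fin_deg {E : Type*} [Field E] {s τ : ℕ} :
    Module.Finite E (restrictTotalDegree (Fin s) E τ) := by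
  classical
  have h1 : {α : Fin s →₀ ℕ | α.degree ≤ τ}.Finite := by
    refine (Set.finite_Iic (Finsupp.equivFunOnFinite.symm (fun _ : Fin s => τ))).subset ?_
    intro α hα i
    change α i ≤ τ
    exact (Finsupp.le_degree i α).trans hα
  have h2 : Finite {α : Fin s →₀ ℕ | α.sum (fun _ e => e) ≤ τ} := h1
  exact Module.Finite.of_basis (basisRestrictSupport E {α : Fin s →₀ ℕ | α.sum (fun _ e => e) ≤ τ})

section

variable {E : Type} [Field E] [Infinite E] {s : ℕ}

/-- one component -/
theorem grow1 {F : Type} [Field F] [Algebra E F] {k : ℕ} {z : Fin k → F} {y : Fin s → F}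
    (hz1 : ∀ j, z j ∈ Submodule.span E (Set.range y)) (hz2 : AlgebraicIndependent E z)
    (hgen : IntermediateField.adjoin E (Set.range y) = ⊤)
    (hint : ∀ i, IntOver E (HS z) (Polynomial.X * Polynomial.C (y i))) {τ t : ℕ}
    {U U' : Submodule E (MvPolynomial (Fin s) E)} (hU : U ≤ restrictTotalDegree (Fin s) E τ)
    (hU' : U' ≤ restrictTotalDegree (Fin s) E t)
    (hUU : ∀ Q : MvPolynomial (Fin s) E, Q.totalDegree ≤ t - τ → ∀ u ∈ U, Q * u ∈ U') :
    (k + (t - τ)).choose (t - τ) *
      Module.finrank E (U.map (aeval y : MvPolynomial (Fin s) E →ₐ[E] F).toLinearMap) ≤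
      (τ + 1) ^ k *
        Module.finrank E (U'.map (aeval y : MvPolynomial (Fin s) E →ₐ[E] F).toLinearMap) := by
  have hfinU' : Module.Finite E U' := Submodule.finiteDimensional_of_le hU'
  obtain ⟨ev, hev⟩ : ∃ ev : MvPolynomial (Fin s) E →ₗ[E] F,
    ev = (aeval y : MvPolynomial (Fin s) E →ₐ[E] F).toLinearMap := ⟨_, rfl⟩
  have hevmul : ∀ P Q, ev (P * Q) = ev P * ev Q := fun P Q => by
    rw [hev]
    exact map_mul (aeval y : MvPolynomial (Fin s) E →ₐ[E] F) P Q
  rw [← hev]
  have hT : ∀ w ∈ (ev '' U : Set F), w ∈ Submodule.span E (mon y τ) := by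
    rintro _ ⟨u, hu, rfl⟩
    rw [span_mon, hev]
    exact ⟨u, hU hu, rfl⟩
  obtain ⟨ρ, f, hf1, hf2, hf3⟩ := frameT (s := s) τ k E F z y (ev '' U) hz2 hgen hint hT
  have hspan : Submodule.span E (ev '' U : Set F) = U.map ev := by
    rw [Submodule.span_image, Submodule.span_eq]
  rw [hspan] at hf3
  choose u hu hu2 using hf1
  have h1 : (k + (t - τ)).choose (t - τ) * ρ ≤ Module.finrank E (U'.map ev) := by
    refine card_prod (U'.map ev) z f hf2 fun α hα i => ?_
    have h2 := mon_prod (E := E) (fun j => range_mon (hz1 j)) α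
    rw [span_mon] at h2
    obtain ⟨Q, hQ, hQ2⟩ := h2
    rw [SetLike.mem_coe, mem_restrictTotalDegree] at hQ
    refine ⟨Q * u i, hUU Q (hQ.trans hα) _ (hu i), ?_⟩
    rw [hevmul, hu2, ← hQ2, hev]
  calc (k + (t - τ)).choose (t - τ) * Module.finrank E (U.map ev)
      ≤ (k + (t - τ)).choose (t - τ) * ((τ + 1) ^ k * ρ) := Nat.mul_le_mul_left _ hf3
    _ = (τ + 1) ^ k * ((k + (t - τ)).choose (t - τ) * ρ) := by ring
    _ ≤ _ := Nat.mul_le_mul_left _ h1

/-- **The growth of the functions on a union of varieties.** -/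
theorem growU {ι : Type*} (I : ι → Ideal (MvPolynomial (Fin s) E)) {k τ t : ℕ} (S : Finset ι)
    (hI : ∀ j ∈ S, (I j).IsPrime ∧ Ind (I j) k ∧ ¬ Ind (I j) (k + 1)) :
    ∀ U U' : Submodule E (MvPolynomial (Fin s) E), U ≤ restrictTotalDegree (Fin s) E τ →
      U' ≤ restrictTotalDegree (Fin s) E t →
      (∀ Q : MvPolynomial (Fin s) E, Q.totalDegree ≤ t - τ → ∀ u ∈ U, Q * u ∈ U') →
      (k + (t - τ)).choose (t - τ) * rk U (S.inf fun j => (I j).restrictScalars E) ≤
        (τ + 1) ^ k * rk U' (S.inf fun j => (I j).restrictScalars E) := by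
  classical
  induction S using Finset.induction_on with
  | empty =>
    intro U U' _ _ _
    rw [Finset.inf_empty, rk_top, rk_top]
    simp
  | insert j S hj ih =>
    intro U U' hU hU' hUU
    have hfinU : Module.Finite E U := Submodule.finiteDimensional_of_le hU
    have hfinU' : Module.Finite E U' := Submodule.finiteDimensional_of_le hU'
    rw [Finset.inf_insert, rk_inf, rk_inf, mul_add, mul_add]
    obtain ⟨h1, h2, h3⟩ := hI j (Finset.mem_insert_self j S)
    refine add_le_add ?_ ?_
    · obtain ⟨F, _, _, y, z, hy, hgen, hz1, hz2, hz3⟩ := gen_pt h1 h2 h3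
      have hker : (I j).restrictScalars E =
          LinearMap.ker (aeval y : MvPolynomial (Fin s) E →ₐ[E] F).toLinearMap := by
        ext G
        rw [LinearMap.mem_ker]
        exact (hy G).symm
      rw [hker, rk_eq_map, rk_eq_map]
      exact grow1 hz1 hz2 hgen hz3 hU hU' hUU
    · refine ih (fun i hi => hI i (Finset.mem_insert_of_mem hi)) _ _ (inf_le_left.trans hU)
        (inf_le_left.trans hU') fun Q hQ u hu => ?_
      exact ⟨hUU Q hQ u hu.1, (I j).mul_mem_left Q hu.2⟩

/-- the growth of the functions of bounded degree -/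
theorem grow_pts {ι : Type*} [Fintype ι] (J : Ideal (MvPolynomial (Fin s) E))
    (I : ι → Ideal (MvPolynomial (Fin s) E)) {k τ t : ℕ} (hτ : τ ≤ t)
    (hI : ∀ j, (I j).IsPrime ∧ Ind (I j) k ∧ ¬ Ind (I j) (k + 1))
    (hJ : ∀ G : MvPolynomial (Fin s) E, G.totalDegree ≤ t → (G ∈ J ↔ ∀ j, G ∈ I j)) :
    (k + (t - τ)).choose (t - τ) *
      rk (restrictTotalDegree (Fin s) E τ) (J.restrictScalars E) ≤
      (τ + 1) ^ k * rk (restrictTotalDegree (Fin s) E t) (J.restrictScalars E) := by
  classical
  have h1 := growU I (k := k) (τ := τ) (t := t) Finset.univ (fun j _ => hI j)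
    (restrictTotalDegree (Fin s) E τ) (restrictTotalDegree (Fin s) E t) le_rfl le_rfl
    (fun Q hQ u hu => by
      rw [mem_restrictTotalDegree] at hu ⊢
      exact (totalDegree_mul _ _).trans (by omega))
  have h2 : ∀ a ≤ t, rk (restrictTotalDegree (Fin s) E a)
      (Finset.univ.inf fun j => (I j).restrictScalars E) =
      rk (restrictTotalDegree (Fin s) E a) (J.restrictScalars E) := by
    intro a ha
    have h3 : restrictTotalDegree (Fin s) E a ⊓ (Finset.univ.inf fun j => (I j).restrictScalars E) =
        restrictTotalDegree (Fin s) E a ⊓ J.restrictScalars E := by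
      ext G
      rw [Submodule.mem_inf, Submodule.mem_inf, Submodule.mem_finsetInf, mem_restrictTotalDegree]
      refine and_congr_right fun hG => ?_
      have h4 := hJ G (hG.trans ha)
      simp only [Submodule.restrictScalars_mem]
      rw [h4]
      simp
    rw [rk, rk, h3]
  rwa [h2 τ hτ, h2 t le_rfl] at h1

end

end Pool.Agent.U598.PS
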